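import Mathlib

/-! # Tensor products of several `2 × 2` matrices -/

open Matrix Filter Topology

namespace Pool.Agent.V7H90.Tens

variable {r : ℕ}

/-- the tensor product of the matrices `A i` -/
def tens {R : Type*} [CommRing R] (A : Fin r → Matrix (Fin 2) (Fin 2) R) :
    Matrix (Fin r → Fin 2) (Fin r → Fin 2) R :=
  Matrix.of fun a b => ∏ i, A i (a i) (b i)

section ring
variable {R S : Type*} [CommRing R] [CommRing S]

lemma tens_apply (A : Fin r → Matrix (Fin 2) (Fin 2) R) (a b : Fin r → Fin 2) :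
    tens A a b = ∏ i, A i (a i) (b i) := rfl

lemma tens_mul (A B : Fin r → Matrix (Fin 2) (Fin 2) R) :
    tens A * tens B = tens (fun i => A i * B i) := by
  ext a b
  simp only [Matrix.mul_apply, tens_apply]
  rw [Finset.prod_univ_sum, Fintype.piFinset_univ]
  refine Finset.sum_congr rfl fun c _ => ?_
  rw [Finset.prod_mul_distrib]

lemma tens_diagonal (d : Fin r → Fin 2 → R) :
    tens (fun i => diagonal (d i)) = diagonal (fun a => ∏ i, d i (a i)) := by
  ext a b
  rw [tens_apply]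
  by_cases h : a = b
  · subst h; simp
  · rw [diagonal_apply_ne _ h]
    obtain ⟨i, hi⟩ := Function.ne_iff.1 h
    exact Finset.prod_eq_zero (Finset.mem_univ i) (diagonal_apply_ne _ hi)

lemma tens_one : tens (fun _ : Fin r => (1 : Matrix (Fin 2) (Fin 2) R)) = 1 := by
  have h := tens_diagonal (r := r) (R := R) (fun _ _ => 1)
  simpa using h

lemma tens_map (f : R →+* S) (A : Fin r → Matrix (Fin 2) (Fin 2) R) :
    (tens A).map f = tens (fun i => (A i).map f) := by
  ext a b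
  simp [tens_apply]

/-- the product over all index tuples -/
lemma prod_sq (c : Fin r → Fin 2 → R) :
    (∏ a : Fin r → Fin 2, ∏ i, c i (a i)) ^ 2 = (∏ i, (c i 0 * c i 1)) ^ (2 ^ r) := by
  have hinv : Function.Involutive (fun (a : Fin r → Fin 2) (i : Fin r) => Fin.rev (a i)) := by
    intro a
    funext i
    simp
  have h1 : ∏ a : Fin r → Fin 2, ∏ i, c i (a i)
      = ∏ a : Fin r → Fin 2, ∏ i, c i (Fin.rev (a i)) := by
    refine Fintype.prod_equiv (hinv.toPerm) _ _ fun a => ?_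
    refine Finset.prod_congr rfl fun i _ => ?_
    simp [Function.Involutive.toPerm]
  rw [sq]
  nth_rewrite 2 [h1]
  rw [← Finset.prod_mul_distrib]
  have h2 : ∀ a : Fin r → Fin 2, (∏ i, c i (a i)) * ∏ i, c i (Fin.rev (a i))
      = ∏ i, (c i 0 * c i 1) := by
    intro a
    rw [← Finset.prod_mul_distrib]
    refine Finset.prod_congr rfl fun i _ => ?_
    generalize a i = j
    fin_cases j
    · simp [Fin.rev]
    · simp [Fin.rev, mul_comm]
  rw [Finset.prod_congr rfl fun a _ => h2 a, Finset.prod_const, Finset.card_univ,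
    Fintype.card_fun, Fintype.card_fin, Fintype.card_fin]

end ring

lemma prod_abs_one (c : Fin r → Fin 2 → ℝ) (hc : ∀ i, |∏ j, c i j| = 1) :
    |∏ a : Fin r → Fin 2, ∏ i, c i (a i)| = 1 := by
  have h1 := congrArg abs (prod_sq c)
  have h2 : |∏ i, (c i 0 * c i 1)| = 1 := by
    rw [Finset.abs_prod]
    refine Finset.prod_eq_one fun i _ => ?_
    have := hc i
    rwa [Fin.prod_univ_two] at this
  rw [abs_pow, abs_pow, h2, one_pow] at h1
  exact (pow_eq_one_iff_of_nonneg (abs_nonneg _) two_ne_zero).1 h1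

/-- values at pure tensors -/
lemma tens_pure {R : Type*} [CommRing R] (g : Fin r → Matrix (Fin 2) (Fin 2) R)
    (x : Fin r → Fin 2 → R) (a : Fin r → Fin 2) :
    (tens g *ᵥ fun b => ∏ i, x i (b i)) a = ∏ i, (g i *ᵥ x i) (a i) := by
  simp only [mulVec, dotProduct, tens_apply]
  rw [Finset.prod_univ_sum, Fintype.piFinset_univ]
  refine Finset.sum_congr rfl fun c _ => ?_
  rw [Finset.prod_mul_distrib]

/-- the product of the forms takes arbitrarily small values at nonzero integer points -/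
def Small {ι : Type*} [Fintype ι] (S : Matrix ι ι ℝ) : Prop :=
  ∀ ε : ℝ, 0 < ε → ∃ x : ι → ℤ, x ≠ 0 ∧ |∏ i, (S *ᵥ fun j => (x j : ℝ)) i| < ε

/-- if one of the factors has small values then so has the tensor product -/
lemma small_of_factor (g : Fin r → Matrix (Fin 2) (Fin 2) ℝ) (i₀ : Fin r)
    (h : Small (g i₀)) : Small (tens g) := by
  intro ε hε
  set c : ℝ := ∏ i ∈ Finset.univ.erase i₀, |(g i *ᵥ fun _ => (1 : ℝ)) 0 * (g i *ᵥ fun _ => 1) 1|
    with hc
  have hc0 : 0 ≤ c := Finset.prod_nonneg fun i _ => abs_nonneg _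
  set δ : ℝ := min 1 (ε ^ 2) / (c + 1) with hδ
  have hδ0 : 0 < δ := by
    rw [hδ]
    exact div_pos (lt_min one_pos (by positivity)) (by positivity)
  obtain ⟨v, hv, hv2⟩ := h δ hδ0
  set x : Fin r → Fin 2 → ℤ := fun i => if i = i₀ then v else fun _ => 1 with hx
  refine ⟨fun b => ∏ i, x i (b i), ?_, ?_⟩
  · obtain ⟨j, hj⟩ := Function.ne_iff.1 hv
    intro h0
    have h1 := congrFun h0 (fun _ => j)
    simp only [Pi.zero_apply, Finset.prod_eq_zero_iff, Finset.mem_univ, true_and] at h1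
    obtain ⟨i, hi⟩ := h1
    simp only [hx] at hi
    split_ifs at hi with h2
    · exact hj hi
    · exact one_ne_zero hi
  · have h1 : (fun b : Fin r → Fin 2 => ((∏ i, x i (b i) : ℤ) : ℝ))
        = fun b => ∏ i, (fun j => (x i j : ℝ)) (b i) := by
      funext b; push_cast; rfl
    rw [h1]
    have hval : ∀ a, (tens g *ᵥ fun b => ∏ i, (fun j => (x i j : ℝ)) (b i)) a
        = ∏ i, (g i *ᵥ fun j => (x i j : ℝ)) (a i) := fun a =>
      tens_pure g (fun i j => (x i j : ℝ)) a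
    rw [Finset.prod_congr rfl fun a _ => hval a]
    set P : ℝ := ∏ a : Fin r → Fin 2, ∏ i, (g i *ᵥ fun j => (x i j : ℝ)) (a i) with hP
    have h2 := congrArg abs (prod_sq fun i => (g i *ᵥ fun j => (x i j : ℝ)))
    rw [← hP, abs_pow, abs_pow] at h2
    have h3 : |∏ i, ((g i *ᵥ fun j => (x i j : ℝ)) 0 * (g i *ᵥ fun j => (x i j : ℝ)) 1)|
        ≤ δ * c := by
      rw [Finset.abs_prod, ← Finset.mul_prod_erase _ _ (Finset.mem_univ i₀)]
      have h4 : |(g i₀ *ᵥ fun j => (x i₀ j : ℝ)) 0 * (g i₀ *ᵥ fun j => (x i₀ j : ℝ)) 1| ≤ δ := by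
        have h5 : x i₀ = v := by simp [hx]
        rw [h5, ← Fin.prod_univ_two]
        exact hv2.le
      have h6 : ∏ i ∈ Finset.univ.erase i₀,
          |(g i *ᵥ fun j => (x i j : ℝ)) 0 * (g i *ᵥ fun j => (x i j : ℝ)) 1| = c := by
        rw [hc]
        refine Finset.prod_congr rfl fun i hi => ?_
        have h7 : (fun j => (x i j : ℝ)) = fun _ => (1 : ℝ) := by
          funext j
          simp [hx, Finset.ne_of_mem_erase hi]
        rw [h7]
      rw [h6]
      exact mul_le_mul_of_nonneg_right h4 hc0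
    have h4 : δ * c < min 1 (ε ^ 2) := by
      rw [hδ, div_mul_eq_mul_div, div_lt_iff₀ (by positivity)]
      have : 0 < min 1 (ε ^ 2) := lt_min one_pos (by positivity)
      nlinarith
    have h5 : |∏ i, ((g i *ᵥ fun j => (x i j : ℝ)) 0 * (g i *ᵥ fun j => (x i j : ℝ)) 1)| ^ (2 ^ r)
        < ε ^ 2 := by
      set q := |∏ i, ((g i *ᵥ fun j => (x i j : ℝ)) 0 * (g i *ᵥ fun j => (x i j : ℝ)) 1)|
      have h6 : q < min 1 (ε ^ 2) := lt_of_le_of_lt h3 h4
      have h7 : q ≤ 1 := (h6.trans_le (min_le_left _ _)).le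
      calc q ^ (2 ^ r) ≤ q ^ 1 :=
            pow_le_pow_of_le_one (abs_nonneg _) h7 (Nat.one_le_two_pow)
        _ < ε ^ 2 := by rw [pow_one]; exact h6.trans_le (min_le_right _ _)
    rw [← h2] at h5
    exact lt_of_pow_lt_pow_left₀ 2 hε.le h5

/-- the action of an integer matrix with an inverse -/
lemma mulVec_ne_zero {ι : Type*} [Fintype ι] [DecidableEq ι] {Γ Δ : Matrix ι ι ℤ}
    (h : Δ * Γ = 1) {x : ι → ℤ} (hx : x ≠ 0) : Γ *ᵥ x ≠ 0 := by
  intro h0
  apply hx
  have h1 : (Δ * Γ) *ᵥ x = 0 := by rw [← mulVec_mulVec, h0, mulVec_zero]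
  rwa [h, one_mulVec] at h1

/-- a limit with a form which vanishes at an integer point -/
lemma small_of_limit {ι : Type*} [Fintype ι] [DecidableEq ι] (S H : Matrix ι ι ℝ)
    (A : ℕ → ι → ℝ) (Γ Δ : ℕ → Matrix ι ι ℤ) (hA : ∀ n, |∏ i, A n i| = 1)
    (hΓ : ∀ n, Δ n * Γ n = 1)
    (hlim : Tendsto (fun n => diagonal (A n) * S * (Γ n).map (Int.cast : ℤ → ℝ)) atTop (𝓝 H))
    (P : ι → ℤ) (hP : P ≠ 0) (i₀ : ι) (h0 : (H *ᵥ fun j => (P j : ℝ)) i₀ = 0) : Small S := by
  intro ε hε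
  have h1 : Tendsto (fun n => ∏ i, ((diagonal (A n) * S * (Γ n).map (Int.cast : ℤ → ℝ)) *ᵥ
      fun j => (P j : ℝ)) i) atTop (𝓝 (∏ i, (H *ᵥ fun j => (P j : ℝ)) i)) := by
    refine tendsto_finsetProd _ fun i _ => ?_
    have hc : Continuous fun M : Matrix ι ι ℝ => (M *ᵥ fun j => (P j : ℝ)) i := by
      unfold mulVec dotProduct
      fun_prop
    exact (hc.tendsto H).comp hlim
  rw [Finset.prod_eq_zero (Finset.mem_univ i₀) h0] at h1
  obtain ⟨n, hn⟩ := ((Metric.tendsto_nhds.1 h1) ε hε).exists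
  rw [Real.dist_eq, sub_zero] at hn
  refine ⟨Γ n *ᵥ P, mulVec_ne_zero (hΓ n) hP, ?_⟩
  have h2 : (fun j => ((Γ n *ᵥ P) j : ℝ)) = (Γ n).map (Int.cast : ℤ → ℝ) *ᵥ fun j => (P j : ℝ) := by
    funext j
    simp [mulVec, dotProduct]
  have h3 : ∀ i, ((diagonal (A n) * S * (Γ n).map (Int.cast : ℤ → ℝ)) *ᵥ
      fun j => (P j : ℝ)) i = A n i * (S *ᵥ fun j => ((Γ n *ᵥ P) j : ℝ)) i := by
    intro i
    rw [h2, Matrix.mul_assoc, ← mulVec_mulVec, ← mulVec_mulVec, mulVec_diagonal]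
  rw [Finset.prod_congr rfl fun i _ => h3 i, Finset.prod_mul_distrib, abs_mul, hA n, one_mul] at hn
  exact hn

/-- limits of the factors give limits of the tensor product -/
lemma limit_tens (g h : Fin r → Matrix (Fin 2) (Fin 2) ℝ) (a : Fin r → ℕ → Fin 2 → ℝ)
    (γ : Fin r → ℕ → Matrix (Fin 2) (Fin 2) ℤ)
    (hlim : ∀ i, Tendsto (fun n => diagonal (a i n) * g i * (γ i n).map (Int.cast : ℤ → ℝ)) atTop
      (𝓝 (h i))) :
    Tendsto (fun n => diagonal (fun b : Fin r → Fin 2 => ∏ i, a i n (b i)) * tens g *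
      (tens fun i => γ i n).map (Int.cast : ℤ → ℝ)) atTop (𝓝 (tens h)) := by
  have h1 : ∀ n, diagonal (fun b : Fin r → Fin 2 => ∏ i, a i n (b i)) * tens g *
      (tens fun i => γ i n).map (Int.cast : ℤ → ℝ)
      = tens fun i => diagonal (a i n) * g i * (γ i n).map (Int.cast : ℤ → ℝ) := by
    intro n
    rw [← tens_diagonal, show (Int.cast : ℤ → ℝ) = (Int.castRingHom ℝ : ℤ → ℝ) from rfl,
      tens_map, tens_mul, tens_mul]
  simp only [h1]
  refine tendsto_pi_nhds.2 fun b => tendsto_pi_nhds.2 fun c => ?_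
  simp only [tens_apply]
  refine tendsto_finsetProd _ fun i _ => ?_
  exact tendsto_pi_nhds.1 (tendsto_pi_nhds.1 (hlim i) (b i)) (c i)

end Pool.Agent.V7H90.Tens
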