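import Mathlib
import Pool.Agent.N759.CFr.Basic
import Pool.Agent.V7H90.Tens.Basic

/-! # Limits of binary lattices and continued fractions -/

open Matrix Filter Topology Pool.Agent.N759.CFr

namespace Pool.Agent.V7H90.Tens

/-- the denominators of the convergents: `den α (m + 1) = q_m` and `den α 0 = q_{-1} = 0` -/
noncomputable def den (α : ℝ) : ℕ → ℤ
  | 0 => 0
  | 1 => 1
  | k + 2 => pq α (k + 1) * den α (k + 1) + den α k

/-- `ξ` is a limit point of the complete quotients `[a_m; a_(m+1), …]` of `α`, or of the numbers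
`-q_(m-1) / q_m = -[0; a_m, …, a_1]` -/
def Limit (α ξ : ℝ) : Prop :=
  MapClusterPt ξ atTop (cq α) ∨
    MapClusterPt ξ atTop (fun m : ℕ => -((den α m : ℝ) / (den α (m + 1) : ℝ)))

lemma den_facts {α : ℝ} (h : Irrational α) (k : ℕ) :
    0 ≤ den α k ∧ den α k ≤ den α (k + 1) ∧ 1 ≤ den α (k + 1) := by
  induction k with
  | zero => simp [den]
  | succ k ih =>
    obtain ⟨h1, h2, h3⟩ := ih
    have h4 := one_le_pq h k
    have h5 : den α (k + 1 + 1) = pq α (k + 1) * den α (k + 1) + den α k := rfl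
    rw [h5]
    refine ⟨by omega, by nlinarith, by nlinarith⟩

lemma lv_decomp (α u v : ℝ) (k : ℕ) :
    lv α u v k = lv α (α * v) v k + (u - α * v) * ((-1) ^ (k + 1) * (den α k : ℝ)) := by
  induction k using Nat.strong_induction_on with
  | _ k ih =>
    match k with
    | 0 => simp [lv, den]
    | 1 => simp [lv, den]
    | k + 2 =>
      have h1 : lv α u v (k + 2) = lv α u v k - pq α (k + 1) * lv α u v (k + 1) := rfl
      have h2 : lv α (α * v) v (k + 2)
          = lv α (α * v) v k - pq α (k + 1) * lv α (α * v) v (k + 1) := rfl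
      have h3 : den α (k + 2) = pq α (k + 1) * den α (k + 1) + den α k := rfl
      rw [h1, h2, ih k (by omega), ih (k + 1) (by omega), h3]
      push_cast
      ring

lemma tendsto_pr {α : ℝ} (h : Irrational α) : Tendsto (pr α) atTop atTop := by
  refine tendsto_atTop_atTop_of_monotone (pr_mono h) fun b => ?_
  obtain ⟨k, hk⟩ := pow_unbounded_of_one_lt b (one_lt_two : (1 : ℝ) < 2)
  exact ⟨2 * k, hk.le.trans (pow_le_pr h k)⟩

section
variable {α : ℝ} (hα : Irrational α) (g : Matrix (Fin 2) (Fin 2) ℝ) (hdet : g.det ≠ 0)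
  (hg : g 0 0 = α * g 0 1)

/-- the constant -/
noncomputable def cs (α : ℝ) (g : Matrix (Fin 2) (Fin 2) ℝ) : ℝ :=
  |g 1 1| + |g 1 0 - pq α 0 * g 1 1|

lemma cs_nonneg (α : ℝ) (g : Matrix (Fin 2) (Fin 2) ℝ) : 0 ≤ cs α g := by
  unfold cs; positivity

include hdet hg in
lemma g01_ne : g 0 1 ≠ 0 := by
  intro h0
  apply hdet
  rw [det_fin_two, hg, h0]
  ring

/-- the normalised local matrix -/
lemma local_eq (k : ℕ) (s : ℝ) (hs : s ≠ 0) (h : lv α (g 0 0) (g 0 1) k = s)
    (hu : lu α (g 0 0) (g 0 1) k = cq α k * s) :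
    diagonal ![1 / s, s] * g * (CC α k).map (Int.cast : ℤ → ℝ)
      = !![cq α k, 1; s * lu α (g 1 0) (g 1 1) k, s * lv α (g 1 0) (g 1 1) k] := by
  obtain ⟨h1, h2⟩ := loc_eq α (g 0 0) (g 0 1) k
  obtain ⟨h3, h4⟩ := loc_eq α (g 1 0) (g 1 1) k
  rw [Matrix.mul_assoc]
  ext i j
  rw [diagonal_mul, Matrix.mul_apply, Fin.sum_univ_two]
  fin_cases i <;> fin_cases j
  · simp only [Fin.mk_zero, Fin.isValue, Matrix.map_apply, cons_val_zero, h1, hu,
      of_apply, cons_val', cons_val_fin_one]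
    field_simp
  · simp only [Fin.mk_zero, Fin.isValue, Fin.mk_one, Matrix.map_apply, cons_val_zero,
      h2, h, of_apply, cons_val', cons_val_fin_one, cons_val_one]
    field_simp
  · simp [h3]
  · simp [h4]

include hα hg in
lemma lv_bound (k : ℕ) :
    |lv α (g 0 0) (g 0 1) (k + 1) * lv α (g 1 0) (g 1 1) (k + 1)| * cq α (k + 1)
      ≤ 2 * |g 0 1| * cs α g ∧
    |lv α (g 0 0) (g 0 1) (k + 1) * lu α (g 1 0) (g 1 1) (k + 1)| * cq α (k + 1)
      ≤ 2 * |g 0 1| * cs α g := by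
  have h1 := key_le hα (g 0 1) k
  have h2 := abs_lv_le hα (g 1 0) (g 1 1) (k + 1)
  have h3 := abs_lu_le hα (g 1 0) (g 1 1) k
  have h4 := one_lt_cq hα k
  have h5 := BB_pos hα (k + 1)
  have h6 := cs_nonneg α g
  rw [hg, abs_mul, abs_mul]
  unfold cs at *
  set v0 := |lv α (α * g 0 1) (g 0 1) (k + 1)|
  have h0 : 0 ≤ v0 := abs_nonneg _
  constructor
  · calc v0 * |lv α (g 1 0) (g 1 1) (k + 1)| * cq α (k + 1)
        ≤ v0 * ((|g 1 1| + |g 1 0 - pq α 0 * g 1 1|) * BB α (k + 1)) * cq α (k + 1) := by gcongr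
      _ = (v0 * (BB α (k + 1) * cq α (k + 1))) * (|g 1 1| + |g 1 0 - pq α 0 * g 1 1|) := by ring
      _ ≤ 2 * |g 0 1| * (|g 1 1| + |g 1 0 - pq α 0 * g 1 1|) :=
          mul_le_mul_of_nonneg_right h1 h6
  · calc v0 * |lu α (g 1 0) (g 1 1) (k + 1)| * cq α (k + 1)
        ≤ v0 * ((|g 1 1| + |g 1 0 - pq α 0 * g 1 1|) * BB α (k + 1)) * cq α (k + 1) := by gcongr
      _ = (v0 * (BB α (k + 1) * cq α (k + 1))) * (|g 1 1| + |g 1 0 - pq α 0 * g 1 1|) := by ring
      _ ≤ 2 * |g 0 1| * (|g 1 1| + |g 1 0 - pq α 0 * g 1 1|) :=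
          mul_le_mul_of_nonneg_right h1 h6

include hα hg in
/-- unbounded complete quotients -/
lemma small_of_unbdd (hun : ∀ C : ℝ, ∃ m, C < cq α m) : Small g := by
  intro ε hε
  set B : ℝ := 2 * |g 0 1| * cs α g with hB
  have hB0 : 0 ≤ B := by have := cs_nonneg α g; positivity
  obtain ⟨m, hm⟩ := hun (max (cq α 0) (B / ε))
  obtain ⟨k, rfl⟩ : ∃ k, m = k + 1 := by
    rcases Nat.eq_zero_or_pos m with h0 | h0
    · subst h0
      exact absurd (le_max_left _ _) (not_le.2 hm)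
    · exact Nat.exists_eq_add_of_le' h0
  obtain ⟨-, h2⟩ := loc_eq α (g 0 0) (g 0 1) (k + 1)
  obtain ⟨-, h4⟩ := loc_eq α (g 1 0) (g 1 1) (k + 1)
  refine ⟨fun j => CC α (k + 1) j 1, ?_, ?_⟩
  · intro h0
    apply det_CC_ne α (k + 1)
    have e0 := congrFun h0 0
    have e1 := congrFun h0 1
    simp only [Pi.zero_apply] at e0 e1
    rw [det_fin_two, e0, e1]
    ring
  · rw [Fin.prod_univ_two]
    simp only [mulVec, dotProduct, Fin.sum_univ_two]
    rw [h2, h4]
    have h5 := (lv_bound hα g hg k).1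
    have h6 : B / ε < cq α (k + 1) := lt_of_le_of_lt (le_max_right _ _) hm
    rw [div_lt_iff₀ hε] at h6
    have h7 := one_lt_cq hα k
    rw [← hB] at h5
    nlinarith

include hα hdet hg in
/-- a limit with a given slope -/
theorem exists_limit (hb : ∃ C : ℝ, ∀ m, cq α m ≤ C) {ξ : ℝ} (hξ : Limit α ξ) :
    ∃ (a : ℕ → Fin 2 → ℝ) (γ : ℕ → Matrix (Fin 2) (Fin 2) ℤ) (h : Matrix (Fin 2) (Fin 2) ℝ)
      (t : Fin 2), (∀ n, |∏ j, a n j| = 1) ∧ (∀ n, |(γ n).det| = 1) ∧
      Tendsto (fun n => diagonal (a n) * g * (γ n).map (Int.cast : ℤ → ℝ)) atTop (𝓝 h) ∧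
      h t 0 = ξ * h t 1 ∧ h t 1 ≠ 0 := by
  obtain ⟨C, hC⟩ := hb
  have hv := g01_ne g hdet hg
  set s : ℕ → ℝ := fun m => lv α (g 0 0) (g 0 1) m with hs
  have hs1 : ∀ m, s m = g 0 1 / pr α m := by
    intro m
    simp only [hs]
    rw [hg, lv_eq hα]
  have hs0 : ∀ m, s m ≠ 0 := by
    intro m
    rw [hs1]
    exact div_ne_zero hv (pr_pos hα m).ne'
  have hu : ∀ m, lu α (g 0 0) (g 0 1) m = cq α m * s m := by
    intro m
    simp only [hs]
    rw [hg, lu_eq hα]
  set M : ℕ → Matrix (Fin 2) (Fin 2) ℝ := fun m =>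
    diagonal ![1 / s m, s m] * g * (CC α m).map (Int.cast : ℤ → ℝ) with hM
  have hMe : ∀ m, M m = !![cq α m, 1; s m * lu α (g 1 0) (g 1 1) m,
      s m * lv α (g 1 0) (g 1 1) m] := fun m => local_eq g m (s m) (hs0 m) rfl (hu m)
  -- determinants
  have hMd : ∀ m, |(M m).det| = |g.det| := by
    intro m
    simp only [hM, det_mul, det_diagonal, Fin.prod_univ_two, cons_val_zero, cons_val_one]
    rw [one_div, inv_mul_cancel₀ (hs0 m), one_mul, abs_mul]
    have h1 : ((CC α m).map (Int.cast : ℤ → ℝ)).det = (((CC α m).det : ℤ) : ℝ) :=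
      ((Int.castRingHom ℝ).map_det (CC α m)).symm
    rw [h1]
    have h2 : |(((CC α m).det : ℤ) : ℝ)| = 1 := by
      rw [← Int.cast_abs, det_CC]; norm_num
    rw [h2, mul_one]
  -- a bounded set
  set B : ℝ := max (max C 1) (2 * |g 0 1| * cs α g) with hB
  set KS : Set (Fin 2 → Fin 2 → ℝ) := Set.univ.pi fun _ => Set.univ.pi fun _ => Set.Icc (-B) B
    with hKS
  have hK : IsCompact KS := isCompact_univ_pi fun _ => isCompact_univ_pi fun _ => isCompact_Icc
  have hmem : ∀ k, (fun i j => M (k + 1) i j) ∈ KS := by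
    intro k
    obtain ⟨h1, h2⟩ := lv_bound hα g hg k
    have h4 := one_lt_cq hα k
    have h5 := hC (k + 1)
    have hb1 : max C 1 ≤ B := le_max_left _ _
    have hb2 : 2 * |g 0 1| * cs α g ≤ B := le_max_right _ _
    have hb3 : C ≤ B := (le_max_left _ _).trans hb1
    have hb4 : 1 ≤ B := (le_max_right _ _).trans hb1
    have key : ∀ y : ℝ, |y| * cq α (k + 1) ≤ 2 * |g 0 1| * cs α g → |y| ≤ B := by
      intro y hy
      nlinarith [abs_nonneg y]
    intro i _ j _
    rw [Set.mem_Icc, ← abs_le]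
    simp only [hMe]
    fin_cases i <;> fin_cases j
    · simp only [Fin.mk_zero, Fin.isValue, of_apply, cons_val', cons_val_zero,
        cons_val_fin_one]
      rw [abs_of_pos (by linarith)]
      linarith
    · simp only [Fin.mk_zero, Fin.isValue, of_apply, cons_val', cons_val_zero,
        cons_val_fin_one, Fin.mk_one, cons_val_one, abs_one]
      exact hb4
    · simp only [Fin.mk_one, Fin.isValue, Fin.zero_eta, of_apply, cons_val', cons_val_zero,
        cons_val_fin_one, cons_val_one]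
      exact key _ h2
    · simp only [Fin.mk_one, Fin.isValue, of_apply, cons_val', cons_val_fin_one, cons_val_one]
      exact key _ h1
  -- subsequences
  have hsub : ∀ k : ℕ → ℕ, ∃ (ψ : ℕ → ℕ) (h : Matrix (Fin 2) (Fin 2) ℝ), StrictMono ψ ∧
      Tendsto (fun n => M (k (ψ n) + 1)) atTop (𝓝 h) := by
    intro k
    obtain ⟨h, -, ψ, hψ, hlim⟩ := hK.tendsto_subseq (x := fun n i j => M (k n + 1) i j)
      fun n => hmem (k n)
    exact ⟨ψ, h, hψ, hlim⟩
  have hentry : ∀ {q : ℕ → ℕ} {h : Matrix (Fin 2) (Fin 2) ℝ},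
      Tendsto (fun n => M (q n)) atTop (𝓝 h) → ∀ i j,
      Tendsto (fun n => M (q n) i j) atTop (𝓝 (h i j)) := fun hlim i j =>
    tendsto_pi_nhds.1 (tendsto_pi_nhds.1 hlim i) j
  rcases hξ with hξ | hξ
  · obtain ⟨φ, hφ, hlim⟩ := hξ.tendsto_subseq
    have hk : ∀ n, φ (n + 1) - 1 + 1 = φ (n + 1) := by
      intro n
      have := hφ.id_le (n + 1)
      simp only [id] at this
      omega
    obtain ⟨ψ, h, hψ, hh⟩ := hsub fun n => φ (n + 1) - 1
    simp only [hk] at hh
    refine ⟨fun n => ![1 / s (φ (ψ n + 1)), s (φ (ψ n + 1))], fun n => CC α (φ (ψ n + 1)), h, 0,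
      fun n => ?_, fun n => det_CC α _, hh, ?_, ?_⟩
    · rw [Fin.prod_univ_two]
      simp only [cons_val_zero, cons_val_one]
      rw [one_div, inv_mul_cancel₀ (hs0 _), abs_one]
    · have h1 := hentry hh 0 0
      have h2 := hentry hh 0 1
      have h3 : ∀ n, M (φ (ψ n + 1)) 0 0 = cq α (φ (ψ n + 1)) := fun n => by rw [hMe]; rfl
      have h4 : ∀ n, M (φ (ψ n + 1)) 0 1 = 1 := fun n => by rw [hMe]; rfl
      simp only [h3] at h1
      simp only [h4] at h2
      have h5 : Tendsto (fun n => cq α (φ (ψ n + 1))) atTop (𝓝 ξ) :=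
        hlim.comp ((tendsto_add_atTop_nat 1).comp hψ.tendsto_atTop)
      rw [tendsto_nhds_unique h1 h5, ← tendsto_nhds_unique tendsto_const_nhds h2, mul_one]
    · have h2 := hentry hh 0 1
      have h4 : ∀ n, M (φ (ψ n + 1)) 0 1 = 1 := fun n => by rw [hMe]; rfl
      simp only [h4] at h2
      rw [← tendsto_nhds_unique tendsto_const_nhds h2]
      exact one_ne_zero
  · obtain ⟨φ, hφ, hlim⟩ := hξ.tendsto_subseq
    obtain ⟨ψ, h, hψ, hh⟩ := hsub φ
    have h1 := hentry hh 1 0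
    have h2 := hentry hh 1 1
    have h3 : Tendsto (fun n => -((den α (φ (ψ n)) : ℝ) / (den α (φ (ψ n) + 1) : ℝ))) atTop
        (𝓝 ξ) := hlim.comp hψ.tendsto_atTop
    have h4 : Tendsto (fun n => M (φ (ψ n) + 1) 1 0 -
        -((den α (φ (ψ n)) : ℝ) / (den α (φ (ψ n) + 1) : ℝ)) * M (φ (ψ n) + 1) 1 1) atTop
        (𝓝 (h 1 0 - ξ * h 1 1)) := h1.sub (h3.mul h2)
    have h5 : Tendsto (fun n => M (φ (ψ n) + 1) 1 0 -
        -((den α (φ (ψ n)) : ℝ) / (den α (φ (ψ n) + 1) : ℝ)) * M (φ (ψ n) + 1) 1 1) atTop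
        (𝓝 0) := by
      have hb : ∀ m : ℕ, |M (m + 1) 1 0 - -((den α m : ℝ) / (den α (m + 1) : ℝ)) * M (m + 1) 1 1|
          ≤ (2 * |g 1 1| * |g 0 1|) * (pr α (m + 1))⁻¹ := by
        intro m
        obtain ⟨d1, d2, d3⟩ := den_facts hα m
        have d1' : (0 : ℝ) ≤ den α m := by exact_mod_cast d1
        have d2' : (den α m : ℝ) ≤ den α (m + 1) := by exact_mod_cast d2
        have d3' : (0 : ℝ) < den α (m + 1) := by
          have : (0 : ℤ) < den α (m + 1) := by omega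
          exact_mod_cast this
        have e1 : M (m + 1) 1 0 = s (m + 1) * lv α (g 1 0) (g 1 1) m := by rw [hMe]; rfl
        have e2 : M (m + 1) 1 1 = s (m + 1) * lv α (g 1 0) (g 1 1) (m + 1) := by rw [hMe]; rfl
        rw [e1, e2, lv_decomp α (g 1 0) (g 1 1) m, lv_decomp α (g 1 0) (g 1 1) (m + 1), lv_eq hα,
          lv_eq hα]
        set D := (den α m : ℝ)
        set D' := (den α (m + 1) : ℝ)
        have e3 : s (m + 1) * (g 1 1 / pr α m + (g 1 0 - α * g 1 1) * ((-1) ^ (m + 1) * D)) -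
            -(D / D') * (s (m + 1) * (g 1 1 / pr α (m + 1) +
              (g 1 0 - α * g 1 1) * ((-1) ^ (m + 1 + 1) * D')))
            = s (m + 1) * (g 1 1 * ((pr α m)⁻¹ + D / D' * (pr α (m + 1))⁻¹)) := by
          field_simp
          ring
        rw [e3, hs1, abs_mul, abs_mul, abs_div, abs_of_pos (pr_pos hα _)]
        have p0 := one_le_pr hα m
        have p1 := one_le_pr hα (m + 1)
        have q1 : (pr α m)⁻¹ ≤ 1 := inv_le_one_of_one_le₀ p0
        have q2 : (pr α (m + 1))⁻¹ ≤ 1 := inv_le_one_of_one_le₀ p1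
        have q3 : 0 ≤ (pr α m)⁻¹ := by positivity
        have q4 : 0 ≤ (pr α (m + 1))⁻¹ := by positivity
        have q5 : D / D' ≤ 1 := (div_le_one d3').2 d2'
        have q6 : 0 ≤ D / D' := by positivity
        have e4 : |(pr α m)⁻¹ + D / D' * (pr α (m + 1))⁻¹| ≤ 2 := by
          rw [abs_of_nonneg (by positivity)]
          nlinarith
        calc |g 0 1| / pr α (m + 1) * (|g 1 1| * |(pr α m)⁻¹ + D / D' * (pr α (m + 1))⁻¹|)
            ≤ |g 0 1| / pr α (m + 1) * (|g 1 1| * 2) := by gcongr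
          _ = _ := by rw [div_eq_mul_inv]; ring
      have h6 : Tendsto (fun n => (2 * |g 1 1| * |g 0 1|) * (pr α (φ (ψ n) + 1))⁻¹) atTop
          (𝓝 0) := by
        have h7 : Tendsto (fun n => φ (ψ n) + 1) atTop atTop :=
          (tendsto_add_atTop_nat 1).comp (hφ.tendsto_atTop.comp hψ.tendsto_atTop)
        have h8 := ((tendsto_inv_atTop_zero.comp (tendsto_pr hα)).comp h7).const_mul
          (2 * |g 1 1| * |g 0 1|)
        rw [mul_zero] at h8
        exact h8
      exact squeeze_zero_norm (fun n => hb _) h6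
    have h6 : h 1 0 = ξ * h 1 1 := by
      have := tendsto_nhds_unique h4 h5
      linarith
    refine ⟨fun n => ![1 / s (φ (ψ n) + 1), s (φ (ψ n) + 1)], fun n => CC α (φ (ψ n) + 1), h, 1,
      fun n => ?_, fun n => det_CC α _, hh, h6, ?_⟩
    · rw [Fin.prod_univ_two]
      simp only [cons_val_zero, cons_val_one]
      rw [one_div, inv_mul_cancel₀ (hs0 _), abs_one]
    · intro h0
      have h7 : Tendsto (fun n => |(M (φ (ψ n) + 1)).det|) atTop (𝓝 |h.det|) := by
        have hc : Continuous fun X : Matrix (Fin 2) (Fin 2) ℝ => |X.det| :=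
          continuous_abs.comp (continuous_id.matrix_det)
        exact (hc.tendsto h).comp hh
      simp only [hMd] at h7
      have h8 := tendsto_nhds_unique tendsto_const_nhds h7
      rw [det_fin_two h, h6, h0] at h8
      simp only [mul_zero, sub_self, abs_zero] at h8
      exact hdet (abs_eq_zero.1 h8)

end

end Pool.Agent.V7H90.Tens
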