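import Mathlib
import Pool.Agent.V7H90.Tens.Cont

/-! # Linearly dependent products of limit points -/

open Matrix Filter Topology Pool.Agent.N759.CFr

namespace Pool.Agent.V7H90.Tens

lemma clear_den {κ : Type*} [Finite κ] (c : κ → ℚ) :
    ∃ (N : ℤ) (P : κ → ℤ), N ≠ 0 ∧ ∀ b, (P b : ℚ) = N * c b := by
  obtain ⟨b, hb⟩ := IsLocalization.exist_integer_multiples_of_finite (nonZeroDivisors ℤ) c
  choose P hP using hb
  refine ⟨b, P, nonZeroDivisors.ne_zero b.2, fun i => ?_⟩
  have := hP i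
  simpa [zsmul_eq_mul] using this

variable {r : ℕ}

/-- the product of the `ξ i` with `b i = 0` -/
noncomputable def mon (ξ : Fin r → ℝ) (b : Fin r → Fin 2) : ℝ :=
  ∏ i, if b i = 0 then ξ i else 1

/-- the subset of the indices with `b i = 0` -/
def toSet : (Fin r → Fin 2) ≃ Finset (Fin r) where
  toFun b := Finset.univ.filter fun i => b i = 0
  invFun I := fun i => if i ∈ I then 0 else 1
  left_inv b := by
    funext i
    simp only [Finset.mem_filter, Finset.mem_univ, true_and]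
    split_ifs with h
    · exact h.symm
    · generalize b i = j at h
      fin_cases j
      · exact absurd rfl h
      · rfl
  right_inv I := by
    ext i
    simp

lemma mon_eq (ξ : Fin r → ℝ) (b : Fin r → Fin 2) : mon ξ b = ∏ i ∈ toSet b, ξ i := by
  rw [mon, toSet]
  simp only [Equiv.coe_fn_mk]
  rw [Finset.prod_filter]

lemma indep_iff (ξ : Fin r → ℝ) :
    LinearIndependent ℚ (fun I : Finset (Fin r) => ∏ i ∈ I, ξ i) ↔
      ∀ c : (Fin r → Fin 2) → ℚ, ∑ b, (c b : ℝ) * mon ξ b = 0 → c = 0 := by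
  rw [Fintype.linearIndependent_iff]
  constructor
  · intro h c hc
    funext b
    have h1 := h (fun I => c (toSet.symm I)) (by
      rw [← hc, ← Equiv.sum_comp toSet]
      refine Finset.sum_congr rfl fun b _ => ?_
      rw [mon_eq, Equiv.symm_apply_apply, Rat.smul_def]) (toSet b)
    simpa using h1
  · intro h c hc I
    have h1 := h (fun b => c (toSet b)) (by
      rw [← hc, ← Equiv.sum_comp toSet]
      refine Finset.sum_congr rfl fun b _ => ?_
      rw [mon_eq, Rat.smul_def])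
    have h2 := congrFun h1 (toSet.symm I)
    simpa using h2

lemma row_eq (h : Fin r → Matrix (Fin 2) (Fin 2) ℝ) (t : Fin r → Fin 2) (ξ : Fin r → ℝ)
    (ht : ∀ i, h i (t i) 0 = ξ i * h i (t i) 1) (b : Fin r → Fin 2) :
    tens h t b = (∏ i, h i (t i) 1) * mon ξ b := by
  rw [tens_apply, mon, ← Finset.prod_mul_distrib]
  refine Finset.prod_congr rfl fun i _ => ?_
  generalize b i = j
  fin_cases j
  · simp [ht i, mul_comm]
  · simp

/-- an integral relation between the products of the slopes of rows of a limit -/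
lemma row_zero (h : Fin r → Matrix (Fin 2) (Fin 2) ℝ) (t : Fin r → Fin 2) (ξ : Fin r → ℝ)
    (ht : ∀ i, h i (t i) 0 = ξ i * h i (t i) 1) (c : (Fin r → Fin 2) → ℚ) (hc : c ≠ 0)
    (hrel : ∑ b, (c b : ℝ) * mon ξ b = 0) :
    ∃ P : (Fin r → Fin 2) → ℤ, P ≠ 0 ∧ (tens h *ᵥ fun j => (P j : ℝ)) t = 0 := by
  obtain ⟨N, P, hN, hP⟩ := clear_den c
  refine ⟨P, ?_, ?_⟩
  · intro h0
    apply hc
    funext b
    have h1 := hP b
    rw [h0] at h1
    simp only [Pi.zero_apply, Int.cast_zero] at h1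
    rcases mul_eq_zero.1 h1.symm with h2 | h2
    · exact absurd (by exact_mod_cast h2) hN
    · exact h2
  · have hP' : ∀ b, (P b : ℝ) = N * (c b : ℝ) := by
      intro b
      have h1 : ((P b : ℚ) : ℝ) = ((N * c b : ℚ) : ℝ) := by rw [hP b]
      push_cast at h1
      exact h1
    simp only [mulVec, dotProduct]
    have h2 : ∀ b, tens h t b * (P b : ℝ)
        = ((∏ i, h i (t i) 1) * N) * ((c b : ℝ) * mon ξ b) := by
      intro b
      rw [row_eq h t ξ ht, hP']
      ring
    rw [Finset.sum_congr rfl fun b _ => h2 b, ← Finset.mul_sum, hrel, mul_zero]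

lemma inv_mul_of_det {γ : Matrix (Fin 2) (Fin 2) ℤ} (h : |γ.det| = 1) : γ⁻¹ * γ = 1 :=
  nonsing_inv_mul _ (Int.isUnit_iff_abs_eq.2 h)

/-- the sequences for the tensor product -/
lemma small_of_zero (g h : Fin r → Matrix (Fin 2) (Fin 2) ℝ) (a : Fin r → ℕ → Fin 2 → ℝ)
    (γ : Fin r → ℕ → Matrix (Fin 2) (Fin 2) ℤ) (ha : ∀ i n, |∏ j, a i n j| = 1)
    (hγ : ∀ i n, |(γ i n).det| = 1)
    (hlim : ∀ i, Tendsto (fun n => diagonal (a i n) * g i * (γ i n).map (Int.cast : ℤ → ℝ)) atTop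
      (𝓝 (h i))) (P : (Fin r → Fin 2) → ℤ) (hP : P ≠ 0) (t : Fin r → Fin 2)
    (h0 : (tens h *ᵥ fun j => (P j : ℝ)) t = 0) : Small (tens g) := by
  refine small_of_limit (tens g) (tens h) (fun n b => ∏ i, a i n (b i))
    (fun n => tens fun i => γ i n) (fun n => tens fun i => (γ i n)⁻¹) (fun n => ?_) (fun n => ?_)
    (limit_tens g h a γ hlim) P hP t h0
  · exact prod_abs_one (fun i => a i n) fun i => ha i n
  · rw [tens_mul, ← tens_one]
    congr 1
    funext i
    exact inv_mul_of_det (hγ i n)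

section
variable (α : Fin r → ℝ) (hα : ∀ i, Irrational (α i)) (g : Fin r → Matrix (Fin 2) (Fin 2) ℝ)
  (hdet : ∀ i, (g i).det ≠ 0) (hg : ∀ i, g i 0 0 = α i * g i 0 1)

include hα hdet hg in
/-- linearly dependent products of limit points -/
theorem small_of_dep (ξ : Fin r → ℝ) (hξ : ∀ i, Limit (α i) (ξ i))
    (hdep : ¬ LinearIndependent ℚ (fun I : Finset (Fin r) => ∏ i ∈ I, ξ i)) :
    Small (tens g) := by
  rw [indep_iff] at hdep
  push Not at hdep
  obtain ⟨c, hrel, hc⟩ := hdep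
  by_cases hb : ∀ i, ∃ C : ℝ, ∀ m, cq (α i) m ≤ C
  · have hex := fun i => exists_limit (hα i) (g i) (hdet i) (hg i) (hb i) (hξ i)
    choose a γ h t ha hγ hlim ht ht1 using hex
    obtain ⟨P, hP, h0⟩ := row_zero h t ξ ht c hc hrel
    exact small_of_zero g h a γ ha hγ hlim P hP t h0
  · push Not at hb
    obtain ⟨i₀, hi₀⟩ := hb
    exact small_of_factor g i₀ (small_of_unbdd (hα i₀) (g i₀) (hg i₀) hi₀)

end

end Pool.Agent.V7H90.Tens
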