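import Mathlib
import Pool.Agent.V7H90.Tens.Dep
import Pool.Agent.H715R2.LimitAlg

/-! # Quadratic limit points: the product is proportional to an integral form or has small values -/

open Matrix Filter Topology Pool.Agent.N759.CFr IntermediateField

namespace Pool.Agent.V7H90.Tens

lemma quad_field {ξ : ℝ} {p q : ℚ} (h : ξ ^ 2 = p * ξ + q) :
    FiniteDimensional ℚ ℚ⟮ξ⟯ ∧ Module.finrank ℚ ℚ⟮ξ⟯ ≤ 2 := by
  set f : Polynomial ℚ := Polynomial.X ^ 2 + (Polynomial.C (-p) * Polynomial.X + Polynomial.C (-q))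
    with hf
  have hdeg : (Polynomial.C (-p) * Polynomial.X + Polynomial.C (-q)).degree < 2 :=
    lt_of_le_of_lt (Polynomial.degree_linear_le) (by norm_num)
  have hm : f.Monic := Polynomial.monic_X_pow_add hdeg
  have hroot : Polynomial.aeval ξ f = 0 := by
    simp only [hf, map_add, map_mul, map_pow, Polynomial.aeval_X, Polynomial.aeval_C,
      eq_ratCast, map_neg]
    rw [h]
    ring
  have hint : IsIntegral ℚ ξ := ⟨f, hm, hroot⟩
  refine ⟨adjoin.finiteDimensional hint, ?_⟩
  rw [adjoin.finrank hint]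
  have h1 := minpoly.min ℚ ξ hm hroot
  have h2 : f.natDegree ≤ 2 := by rw [hf]; compute_degree
  exact (Polynomial.natDegree_le_natDegree h1).trans h2

variable {r : ℕ}

lemma exists_field (ξ : Fin r → ℝ) (hq : ∀ i, ∃ p q : ℚ, ξ i ^ 2 = p * ξ i + q) :
    ∃ K : IntermediateField ℚ ℝ, FiniteDimensional ℚ K ∧ Module.finrank ℚ K ≤ 2 ^ r ∧
      ∀ i, ξ i ∈ K := by
  have key : ∀ s : Finset (Fin r), ∃ K : IntermediateField ℚ ℝ, FiniteDimensional ℚ K ∧
      Module.finrank ℚ K ≤ 2 ^ s.card ∧ ∀ i ∈ s, ξ i ∈ K := by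
    intro s
    induction s using Finset.induction_on with
    | empty => exact ⟨⊥, inferInstance, by simp, by simp⟩
    | insert i s hi ih =>
      obtain ⟨K, h1, h2, h3⟩ := ih
      obtain ⟨p, q, hpq⟩ := hq i
      obtain ⟨h4, h5⟩ := quad_field hpq
      refine ⟨K ⊔ ℚ⟮ξ i⟯, IntermediateField.finiteDimensional_sup _ _, ?_, ?_⟩
      · rw [Finset.card_insert_of_notMem hi, pow_succ]
        exact (IntermediateField.finrank_sup_le _ _).trans (Nat.mul_le_mul h2 h5)
      · intro j hj
        rcases Finset.mem_insert.1 hj with rfl | hj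
        · exact (le_sup_right : ℚ⟮ξ j⟯ ≤ K ⊔ ℚ⟮ξ j⟯) (mem_adjoin_simple_self ℚ _)
        · exact (le_sup_left : K ≤ K ⊔ ℚ⟮ξ i⟯) (h3 j hj)
  obtain ⟨K, h1, h2, h3⟩ := key Finset.univ
  exact ⟨K, h1, by simpa using h2, fun i => h3 i (Finset.mem_univ i)⟩

lemma int_values {d : ℕ} (S : Matrix (Fin d) (Fin d) ℝ) (h : H715R2.PropInt S) :
    ∃ c : ℝ, c ≠ 0 ∧ ∀ x : Fin d → ℤ, ∃ z : ℤ, c * ∏ i, ∑ j, S i j * (x j : ℝ) = z := by
  obtain ⟨c, hc, hz⟩ := h
  choose z hz using hz
  refine ⟨c, hc, fun x => ?_⟩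
  have h1 : c * ∏ i, ∑ j, S i j * (x j : ℝ)
      = MvPolynomial.eval (fun j => (x j : ℝ)) (c • H715R2.polyF S) := by
    rw [MvPolynomial.smul_eval, H715R2.eval_polyF]
  rw [h1, MvPolynomial.eval_eq']
  refine ⟨∑ m ∈ (c • H715R2.polyF S).support, z m * ∏ i, x i ^ m i, ?_⟩
  push_cast
  refine Finset.sum_congr rfl fun m _ => ?_
  rw [hz m]

/-- quadratic limit points -/
theorem small_or_int (hr : 2 ≤ r) (α : Fin r → ℝ) (hα : ∀ i, Irrational (α i))
    (g : Fin r → Matrix (Fin 2) (Fin 2) ℝ) (hdet : ∀ i, (g i).det ≠ 0)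
    (hg : ∀ i, g i 0 0 = α i * g i 0 1) (ξ : Fin r → ℝ) (hξ : ∀ i, Limit (α i) (ξ i))
    (hq : ∀ i, ∃ p q : ℚ, ξ i ^ 2 = p * ξ i + q) :
    Small (tens g) ∨ ∃ c : ℝ, c ≠ 0 ∧ ∀ x : (Fin r → Fin 2) → ℤ, ∃ z : ℤ,
      c * ∏ a, (tens g *ᵥ fun b => (x b : ℝ)) a = z := by
  by_cases hb : ∀ i, ∃ C : ℝ, ∀ m, cq (α i) m ≤ C
  · have hex := fun i => exists_limit (hα i) (g i) (hdet i) (hg i) (hb i) (hξ i)
    choose a γ h t ha hγ hlim ht ht1 using hex
    obtain ⟨K, hK1, hK2, hK3⟩ := exists_field ξ hq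
    set e : (Fin r → Fin 2) ≃ Fin (2 ^ r) := finFunctionFinEquiv with he
    set S : Matrix (Fin (2 ^ r)) (Fin (2 ^ r)) ℝ := (tens g).submatrix e.symm e.symm with hS
    have hd : 3 ≤ 2 ^ r := by
      calc 3 ≤ 2 ^ 2 := by norm_num
        _ ≤ 2 ^ r := Nat.pow_le_pow_right (by norm_num) hr
    have hSdet : S.det ≠ 0 := by
      rw [hS, det_submatrix_equiv_self]
      have h1 : tens g * tens (fun i => (g i)⁻¹) = 1 := by
        rw [tens_mul, ← tens_one]
        congr 1
        funext i
        exact mul_nonsing_inv _ (isUnit_iff_ne_zero.2 (hdet i))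
      intro h0
      have h2 := congrArg det h1
      rw [det_mul, h0, zero_mul, det_one] at h2
      exact zero_ne_one h2
    have hlimT := limit_tens g h a γ hlim
    have hlimS : Tendsto (fun n => diagonal (fun j => ∏ i, a i n (e.symm j i)) * S *
        ((tens fun i => γ i n).submatrix e.symm e.symm).map (Int.cast : ℤ → ℝ)) atTop
        (𝓝 ((tens h).submatrix e.symm e.symm)) := by
      have h1 : ∀ n, diagonal (fun j => ∏ i, a i n (e.symm j i)) * S *
          ((tens fun i => γ i n).submatrix e.symm e.symm).map (Int.cast : ℤ → ℝ)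
          = (diagonal (fun b : Fin r → Fin 2 => ∏ i, a i n (b i)) * tens g *
            (tens fun i => γ i n).map (Int.cast : ℤ → ℝ)).submatrix e.symm e.symm := by
        intro n
        rw [← submatrix_mul_equiv _ _ _ e.symm _, ← submatrix_mul_equiv _ _ _ e.symm _,
          submatrix_diagonal_equiv]
        rfl
      simp only [h1]
      have hc : Continuous fun M : Matrix (Fin r → Fin 2) (Fin r → Fin 2) ℝ =>
          M.submatrix e.symm e.symm := Continuous.matrix_submatrix continuous_id _ _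
      exact (hc.tendsto _).comp hlimT
    have hs : (∏ i, h i (t i) 1) ≠ 0 := Finset.prod_ne_zero_iff.2 fun i _ => ht1 i
    have hA : ∀ n, |∏ j, ∏ i, a i n (e.symm j i)| = 1 := by
      intro n
      rw [Equiv.prod_comp e.symm fun b : Fin r → Fin 2 => ∏ i, a i n (b i)]
      exact prod_abs_one (fun i => a i n) fun i => ha i n
    have hΓ : ∀ n, |((tens fun i => γ i n).submatrix e.symm e.symm).det| = 1 := by
      intro n
      rw [det_submatrix_equiv_self]
      have h1 : (tens fun i => (γ i n)⁻¹) * tens (fun i => γ i n) = 1 := by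
        rw [tens_mul, ← tens_one]
        congr 1
        funext i
        exact inv_mul_of_det (hγ i n)
      have h2 := congrArg det h1
      rw [det_mul, det_one] at h2
      exact Int.isUnit_iff_abs_eq.1 (IsUnit.of_mul_eq_one_right _ h2)
    have hmem : ∀ j, (∏ i, h i (t i) 1)⁻¹ * ((tens h).submatrix e.symm e.symm) (e t) j ∈ K := by
      intro j
      rw [submatrix_apply, Equiv.symm_apply_apply, row_eq h t ξ ht, ← mul_assoc,
        inv_mul_cancel₀ hs, one_mul]
      refine prod_mem fun i _ => ?_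
      split_ifs
      · exact hK3 i
      · exact one_mem K
    rcases H715R2.limit_alg' hd hSdet _ _ hA hΓ hlimS (e t) _ (inv_ne_zero hs) K hK2 hmem with
      h1 | ⟨h1, -⟩
    · right
      obtain ⟨c, hc, hz⟩ := int_values S h1
      refine ⟨c, hc, fun x => ?_⟩
      obtain ⟨z, hz⟩ := hz fun j => x (e.symm j)
      refine ⟨z, ?_⟩
      rw [← hz]
      congr 1
      rw [← Equiv.prod_comp e.symm]
      refine Finset.prod_congr rfl fun j _ => ?_
      simp only [mulVec, dotProduct]
      rw [← Equiv.sum_comp e.symm]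
      rfl
    · left
      intro ε hε
      obtain ⟨x, hx, hx2⟩ := h1 ε hε
      refine ⟨fun b => x (e b), ?_, ?_⟩
      · intro h0
        apply hx
        funext j
        have := congrFun h0 (e.symm j)
        simpa using this
      · have h2 : ∏ a, (tens g *ᵥ fun b => (x (e b) : ℝ)) a = H715R2.FF S (H715R2.iR x) := by
          unfold H715R2.FF H715R2.iR
          rw [← Equiv.prod_comp e.symm]
          refine Finset.prod_congr rfl fun j _ => ?_
          simp only [mulVec, dotProduct]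
          rw [← Equiv.sum_comp e.symm]
          refine Finset.sum_congr rfl fun l _ => ?_
          rw [Equiv.apply_symm_apply]
          rfl
        rw [h2]
        exact hx2
  · push Not at hb
    obtain ⟨i₀, hi₀⟩ := hb
    exact Or.inl (small_of_factor g i₀ (small_of_unbdd (hα i₀) (g i₀) (hg i₀) hi₀))

end Pool.Agent.V7H90.Tens
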