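import Mathlib
import Pool.Agent.V7H90.Tens.Alg

/-! # Rationality of the factors -/

open Matrix Filter Topology Pool.Agent.N759.CFr

namespace Pool.Agent.V7H90.Tens

lemma rat_poly (P : Polynomial ℝ) (h : ∀ n : ℕ, ∃ z : ℚ, P.eval (n : ℝ) = z) :
    ∃ Q : Polynomial ℚ, Q.map (algebraMap ℚ ℝ) = P := by
  choose z hz using h
  set s : Finset ℕ := Finset.range (P.natDegree + 1) with hs
  have hinj : Set.InjOn (fun i : ℕ => (i : ℚ)) s := Nat.cast_injective.injOn
  set Q : Polynomial ℚ := Lagrange.interpolate s (fun i : ℕ => (i : ℚ)) z with hQ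
  have hd : Q.degree < s.card := Lagrange.degree_interpolate_lt _ hinj
  refine ⟨Q, ?_⟩
  have hcard : (s.image fun i : ℕ => (i : ℝ)).card = s.card :=
    Finset.card_image_of_injective _ Nat.cast_injective
  refine Polynomial.eq_of_degrees_lt_of_eval_finset_eq (s.image fun i : ℕ => (i : ℝ)) ?_ ?_ ?_
  · rw [hcard, Polynomial.degree_map]
    exact hd
  · rw [hcard, hs, Finset.card_range]
    exact lt_of_le_of_lt Polynomial.degree_le_natDegree (by exact_mod_cast Nat.lt_succ_self _)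
  · intro x hx
    obtain ⟨n, hn, rfl⟩ := Finset.mem_image.1 hx
    rw [Polynomial.eval_natCast_map, hz n]
    have := Lagrange.eval_interpolate_at_node z hinj hn
    rw [hQ, this]
    rfl

lemma rat_coeff (c α β : ℝ) (hc : c ≠ 0) (N : ℕ) (hN : 0 < N)
    (h : ∀ n : ℕ, ∃ z : ℚ, c * ((1 + α * n) * (1 + β * n)) ^ N = z) :
    ∃ p q : ℚ, α + β = p ∧ α * β = q := by
  set G : Polynomial ℝ := 1 + Polynomial.C (α + β) * Polynomial.X
    + Polynomial.C (α * β) * Polynomial.X ^ 2 with hG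
  set P : Polynomial ℝ := Polynomial.C c * G ^ N with hP
  obtain ⟨Q, hQ⟩ := rat_poly P (by
    intro n
    obtain ⟨z, hz⟩ := h n
    refine ⟨z, ?_⟩
    rw [← hz, hP, hG]
    simp only [Polynomial.eval_mul, Polynomial.eval_C, Polynomial.eval_pow, Polynomial.eval_add,
      Polynomial.eval_one, Polynomial.eval_X]
    ring)
  have g0 : G.eval 0 = 1 := by simp [hG]
  have g1 : (Polynomial.derivative G).eval 0 = α + β := by simp [hG]
  have g2 : (Polynomial.derivative (Polynomial.derivative G)).eval 0 = 2 * (α * β) := by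
    simp [hG]
    ring
  have p0 : P.eval 0 = c := by simp [hP, g0]
  have p1 : (Polynomial.derivative P).eval 0 = c * (N * (α + β)) := by
    rw [hP, Polynomial.derivative_C_mul, Polynomial.derivative_pow]
    simp [g0, g1]
  have p2 : (Polynomial.derivative (Polynomial.derivative P)).eval 0
      = c * (N * (((N - 1 : ℕ) : ℝ) * (α + β) ^ 2 + 2 * (α * β))) := by
    rw [hP, Polynomial.derivative_C_mul, Polynomial.derivative_pow, Polynomial.derivative_C_mul,
      Polynomial.derivative_mul, Polynomial.derivative_C_mul, Polynomial.derivative_pow]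
    simp only [Polynomial.eval_mul, Polynomial.eval_C, Polynomial.eval_add, Polynomial.eval_pow,
      g0, g1, g2, one_pow]
    ring
  have r0 : ((Q.eval 0 : ℚ) : ℝ) = c := by
    rw [← p0, ← hQ]
    simp [Polynomial.eval_map, Polynomial.eval₂_at_zero, Polynomial.coeff_zero_eq_eval_zero]
  have r1 : (((Polynomial.derivative Q).eval 0 : ℚ) : ℝ) = c * (N * (α + β)) := by
    rw [← p1, ← hQ, Polynomial.derivative_map]
    simp [Polynomial.eval_map, Polynomial.eval₂_at_zero, Polynomial.coeff_zero_eq_eval_zero]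
  have r2 : (((Polynomial.derivative (Polynomial.derivative Q)).eval 0 : ℚ) : ℝ)
      = c * (N * (((N - 1 : ℕ) : ℝ) * (α + β) ^ 2 + 2 * (α * β))) := by
    rw [← p2, ← hQ, Polynomial.derivative_map, Polynomial.derivative_map]
    simp [Polynomial.eval_map, Polynomial.eval₂_at_zero, Polynomial.coeff_zero_eq_eval_zero]
  set c0 : ℚ := Q.eval 0
  set c1 : ℚ := (Polynomial.derivative Q).eval 0
  set c2 : ℚ := (Polynomial.derivative (Polynomial.derivative Q)).eval 0
  have hN' : (N : ℝ) ≠ 0 := by exact_mod_cast hN.ne'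
  have hp : α + β = ((c1 / (c0 * N) : ℚ) : ℝ) := by
    push_cast
    rw [r0, r1]
    field_simp
  refine ⟨c1 / (c0 * N), (c2 / (c0 * N) - ((N - 1 : ℕ) : ℚ) * (c1 / (c0 * N)) ^ 2) / 2, hp, ?_⟩
  push_cast
  rw [r0, r1, r2]
  field_simp
  ring

variable {r : ℕ}

/-- rationality of all the factors, if the values are integral and not arbitrarily small -/
theorem conj_of_int (α : Fin r → ℝ) (g : Fin r → Matrix (Fin 2) (Fin 2) ℝ)
    (hdet : ∀ i, (g i).det ≠ 0) (hg : ∀ i, g i 0 0 = α i * g i 0 1) (hns : ¬ Small (tens g))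
    (M : ℕ) (hM : 0 < M) (hint : ∃ c : ℝ, c ≠ 0 ∧ ∀ x : (Fin r → Fin 2) → ℤ, ∃ z : ℤ,
      c * (∏ a, (tens g *ᵥ fun b => (x b : ℝ)) a) ^ M = z) (i₀ : Fin r) :
    ∃ p q : ℚ, α i₀ ^ 2 = p * α i₀ + q ∧ g i₀ 1 0 = (p - α i₀) * g i₀ 1 1 := by
  have hns' : ∀ i, ¬ Small (g i) := fun i h => hns (small_of_factor g i h)
  -- the entries of the second column
  have h01 : ∀ i, g i 0 1 ≠ 0 := fun i => g01_ne (g i) (hdet i) (hg i)
  have h11 : g i₀ 1 1 ≠ 0 := by
    intro h0
    apply hns' i₀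
    intro ε hε
    refine ⟨![0, 1], ?_, ?_⟩
    · intro h1
      have := congrFun h1 1
      simp at this
    · rw [Fin.prod_univ_two]
      simp [mulVec, dotProduct, h0, hε]
  -- points with nonzero values
  have hex : ∀ i, ∃ x : Fin 2 → ℤ, ∏ j, (g i *ᵥ fun k => (x k : ℝ)) j ≠ 0 := by
    intro i
    by_contra hcon
    push Not at hcon
    apply hns' i
    intro ε hε
    refine ⟨fun _ => 1, ?_, ?_⟩
    · intro h1
      have := congrFun h1 0
      simp at this
    · rw [hcon, abs_zero]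
      exact hε
  choose y hy using hex
  obtain ⟨c, hc, hz⟩ := hint
  set N : ℕ := 2 ^ r * M with hN
  set β : ℝ := g i₀ 1 0 / g i₀ 1 1 with hβ
  have hβ' : g i₀ 1 0 = β * g i₀ 1 1 := by rw [hβ]; field_simp
  set R : ℝ := ∏ i ∈ Finset.univ.erase i₀, (∏ j, (g i *ᵥ fun k => (y i k : ℝ)) j) with hR
  have hR0 : R ≠ 0 := Finset.prod_ne_zero_iff.2 fun i _ => hy i
  set c' : ℝ := c ^ 2 * (R * (g i₀ 0 1 * g i₀ 1 1)) ^ N with hc'
  have hc'0 : c' ≠ 0 :=
    mul_ne_zero (pow_ne_zero _ hc) (pow_ne_zero _ (mul_ne_zero hR0 (mul_ne_zero (h01 i₀) h11)))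
  obtain ⟨p, q, hp, hq⟩ := rat_coeff c' (α i₀) β hc'0 N (by positivity) (by
    intro n
    set x : Fin r → Fin 2 → ℤ := fun i => if i = i₀ then ![(n : ℤ), 1] else y i with hx
    obtain ⟨z, hzz⟩ := hz fun b => ∏ i, x i (b i)
    refine ⟨(z : ℚ) ^ 2, ?_⟩
    have h1 : (fun b : Fin r → Fin 2 => ((∏ i, x i (b i) : ℤ) : ℝ))
        = fun b => ∏ i, (fun j => (x i j : ℝ)) (b i) := by
      funext b; push_cast; rfl
    rw [h1] at hzz
    have hval : ∀ a, (tens g *ᵥ fun b => ∏ i, (fun j => (x i j : ℝ)) (b i)) a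
        = ∏ i, (g i *ᵥ fun j => (x i j : ℝ)) (a i) := fun a =>
      tens_pure g (fun i j => (x i j : ℝ)) a
    rw [Finset.prod_congr rfl fun a _ => hval a] at hzz
    have h2 := prod_sq fun i => (g i *ᵥ fun j => (x i j : ℝ))
    have h3 : ∏ i, ((g i *ᵥ fun j => (x i j : ℝ)) 0 * (g i *ᵥ fun j => (x i j : ℝ)) 1)
        = (R * (g i₀ 0 1 * g i₀ 1 1)) * ((1 + α i₀ * n) * (1 + β * n)) := by
      rw [← Finset.mul_prod_erase _ _ (Finset.mem_univ i₀)]
      have h4 : ∏ i ∈ Finset.univ.erase i₀,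
          ((g i *ᵥ fun j => (x i j : ℝ)) 0 * (g i *ᵥ fun j => (x i j : ℝ)) 1) = R := by
        rw [hR]
        refine Finset.prod_congr rfl fun i hi => ?_
        rw [Fin.prod_univ_two]
        simp [hx, Finset.ne_of_mem_erase hi]
      rw [h4]
      have h5 : x i₀ = ![(n : ℤ), 1] := by simp [hx]
      rw [h5]
      simp only [mulVec, dotProduct, Fin.sum_univ_two]
      simp only [cons_val_zero, cons_val_one, Int.cast_natCast, Int.cast_one, mul_one]
      rw [hg i₀, hβ']
      ring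
    rw [h3] at h2
    rw [hc']
    have h6 : ((z : ℚ) ^ 2 : ℚ) = ((z ^ 2 : ℤ) : ℚ) := by push_cast; rfl
    rw [h6]
    push_cast
    have h7 : ∀ X : ℝ, (c * X ^ M) ^ 2 = c ^ 2 * (X ^ 2) ^ M := fun X => by ring
    rw [← hzz, h7, h2, ← pow_mul, ← hN, mul_pow (R * _)]
    ring)
  refine ⟨p, -q, ?_, ?_⟩
  · push_cast
    rw [← hp, ← hq]
    ring
  · rw [← hp, hβ']
    ring

/-- the products of the `α i` are linearly independent, if the values are not arbitrarily small -/
theorem indep_of_not_small (α : Fin r → ℝ) (g : Fin r → Matrix (Fin 2) (Fin 2) ℝ)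
    (hg : ∀ i, g i 0 0 = α i * g i 0 1) (hns : ¬ Small (tens g)) :
    LinearIndependent ℚ (fun I : Finset (Fin r) => ∏ i ∈ I, α i) := by
  rw [indep_iff]
  intro c hrel
  by_contra hc
  obtain ⟨P, hP, h0⟩ := row_zero g (fun _ => 0) α hg c hc hrel
  apply hns
  intro ε hε
  refine ⟨P, hP, ?_⟩
  rw [Finset.prod_eq_zero (Finset.mem_univ _) h0, abs_zero]
  exact hε

end Pool.Agent.V7H90.Tens
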