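import Mathlib
import Pool.Agent.V7H90.Tens.Rat

/-! # Norm forms of multiquadratic fields are bounded below -/

open Matrix Filter Topology Pool.Agent.N759.CFr

namespace Pool.Agent.V7H90.Tens

variable {r : ℕ}

/-- the norm forms do not take small values -/
theorem not_small_of_norm (α : Fin r → ℝ) (hα : ∀ i, Irrational (α i))
    (g : Fin r → Matrix (Fin 2) (Fin 2) ℝ) (hdet : ∀ i, (g i).det ≠ 0)
    (hg : ∀ i, g i 0 0 = α i * g i 0 1)
    (hq : ∀ i, ∃ p q : ℚ, α i ^ 2 = p * α i + q ∧ g i 1 0 = (p - α i) * g i 1 1)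
    (hind : LinearIndependent ℚ (fun I : Finset (Fin r) => ∏ i ∈ I, α i)) :
    ¬ Small (tens g) := by
  choose p q hpq hrow using hq
  obtain ⟨N1, P1, hN1, hP1⟩ := clear_den p
  obtain ⟨N2, P2, hN2, hP2⟩ := clear_den q
  set D : ℤ := N1 * N2 with hD
  have hD0 : D ≠ 0 := mul_ne_zero hN1 hN2
  have hDR : (D : ℝ) ≠ 0 := by exact_mod_cast hD0
  have hp' : ∀ i, ((P1 i * N2 : ℤ) : ℝ) = D * (p i : ℝ) := by
    intro i
    have h1 : ((P1 i * N2 : ℤ) : ℚ) = D * p i := by
      rw [hD]; push_cast; rw [hP1 i]; ring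
    exact_mod_cast congrArg (fun z : ℚ => (z : ℝ)) h1
  have hq' : ∀ i, ((P2 i * N1 : ℤ) : ℝ) = D * (q i : ℝ) := by
    intro i
    have h1 : ((P2 i * N1 : ℤ) : ℚ) = D * q i := by
      rw [hD]; push_cast; rw [hP2 i]; ring
    exact_mod_cast congrArg (fun z : ℚ => (z : ℝ)) h1
  -- the matrices
  set cj : Fin r → Fin 2 → ℝ := fun i => ![α i, p i - α i] with hcj
  set V : Fin r → Matrix (Fin 2) (Fin 2) ℝ := fun i => !![α i, 1; p i - α i, 1] with hV
  set W : Fin r → Fin 2 → Matrix (Fin 2) (Fin 2) ℤ := fun i b =>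
    if b = 0 then !![P1 i * N2, D; P2 i * N1, 0] else !![D, 0; 0, D] with hW
  set lam : Fin r → Fin 2 → Fin 2 → ℝ := fun i b a => D * (if b = 0 then cj i a else 1) with hlam
  have hVW : ∀ i b, V i * (W i b).map (Int.castRingHom ℝ) = diagonal (lam i b) * V i := by
    intro i b
    have e1 := hp' i
    have e2 := hq' i
    have e3 := hpq i
    fin_cases b
    · ext j k
      fin_cases j <;> fin_cases k
      · simp [hV, hW, hlam, hcj, Matrix.mul_apply, Fin.sum_univ_two] at e1 e2 ⊢
        linear_combination (α i) * e1 + e2 - (D : ℝ) * e3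
      · simp [hV, hW, hlam, hcj, Matrix.mul_apply, Fin.sum_univ_two]
        ring
      · simp [hV, hW, hlam, hcj, Matrix.mul_apply, Fin.sum_univ_two] at e1 e2 ⊢
        linear_combination (p i - α i) * e1 + e2 - (D : ℝ) * e3
      · simp [hV, hW, hlam, hcj, Matrix.mul_apply, Fin.sum_univ_two]
        ring
    · ext j k
      fin_cases j <;> fin_cases k <;>
        simp [hV, hW, hlam, hcj, Matrix.mul_apply, Fin.sum_univ_two] <;> ring
  set A : ((Fin r → Fin 2) → ℤ) → Matrix (Fin r → Fin 2) (Fin r → Fin 2) ℤ := fun x =>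
    ∑ b, x b • tens (fun i => W i (b i)) with hA
  set y : ((Fin r → Fin 2) → ℤ) → (Fin r → Fin 2) → ℝ := fun x a =>
    (tens V *ᵥ fun b => (x b : ℝ)) a with hy
  have hVab : ∀ i (a b : Fin 2), V i a b = if b = 0 then cj i a else 1 := by
    intro i a b
    fin_cases a <;> fin_cases b <;> simp [hV, hcj]
  have hlamprod : ∀ (b a : Fin r → Fin 2), ∏ i, lam i (b i) (a i) = (D : ℝ) ^ r * tens V a b := by
    intro b a
    simp only [hlam, Finset.prod_mul_distrib, Finset.prod_const, Finset.card_univ,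
      Fintype.card_fin, tens_apply]
    congr 1
    exact Finset.prod_congr rfl fun i _ => (hVab i _ _).symm
  have hmul : ∀ x, tens V * (A x).map (Int.castRingHom ℝ)
      = diagonal (fun a => (D : ℝ) ^ r * y x a) * tens V := by
    intro x
    have h1 : (A x).map (Int.castRingHom ℝ)
        = ∑ b, (x b : ℝ) • tens (fun i => (W i (b i)).map (Int.castRingHom ℝ)) := by
      ext j k
      simp only [hA, Matrix.map_apply, Matrix.sum_apply, Matrix.smul_apply, map_sum]
      refine Finset.sum_congr rfl fun b _ => ?_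
      rw [← tens_map, Matrix.map_apply]
      simp
    rw [h1, Finset.mul_sum]
    have h2 : ∀ b, tens V * ((x b : ℝ) • tens (fun i => (W i (b i)).map (Int.castRingHom ℝ)))
        = diagonal (fun a => (x b : ℝ) * ((D : ℝ) ^ r * tens V a b)) * tens V := by
      intro b
      rw [Matrix.mul_smul, tens_mul]
      have h3 : (fun i => V i * (W i (b i)).map (Int.castRingHom ℝ))
          = fun i => diagonal (lam i (b i)) * V i := by
        funext i
        exact hVW i (b i)
      rw [h3, ← tens_mul, tens_diagonal]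
      simp only [hlamprod]
      rw [← Matrix.smul_mul]
      congr 1
      ext j k
      by_cases hjk : j = k
      · subst hjk; simp
      · simp [hjk]
    rw [Finset.sum_congr rfl fun b _ => h2 b, ← Finset.sum_mul]
    congr 1
    ext j k
    rw [Matrix.sum_apply]
    by_cases hjk : j = k
    · subst hjk
      simp only [diagonal_apply_eq, hy, mulVec, dotProduct]
      rw [Finset.mul_sum]
      refine Finset.sum_congr rfl fun b _ => ?_
      ring
    · simp [hjk]
  -- the determinant
  have hVdet : (tens V).det ≠ 0 := by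
    have h1 : tens V * tens (fun i => (V i)⁻¹) = 1 := by
      rw [tens_mul, ← tens_one]
      congr 1
      funext i
      refine mul_nonsing_inv _ (isUnit_iff_ne_zero.2 ?_)
      rw [hV, det_fin_two_of]
      intro h0
      apply hα i
      refine ⟨p i / 2, ?_⟩
      push_cast
      linarith
    intro h0
    have h2 := congrArg det h1
    rw [det_mul, h0, zero_mul, det_one] at h2
    exact zero_ne_one h2
  have hdetA : ∀ x, (((A x).det : ℤ) : ℝ) = ∏ a, ((D : ℝ) ^ r * y x a) := by
    intro x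
    have h1 := congrArg det (hmul x)
    rw [det_mul, det_mul, det_diagonal, mul_comm] at h1
    have h2 : ((A x).map (Int.castRingHom ℝ)).det = (((A x).det : ℤ) : ℝ) :=
      ((Int.castRingHom ℝ).map_det (A x)).symm
    rw [h2] at h1
    exact mul_right_cancel₀ hVdet h1
  rw [indep_iff] at hind
  have hy0 : ∀ x : (Fin r → Fin 2) → ℤ, x ≠ 0 → y x (fun _ => 0) ≠ 0 := by
    intro x hx h0
    apply hx
    have h1 := hind (fun b => (x b : ℚ)) (by
      rw [← h0, hy]
      simp only [mulVec, dotProduct]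
      refine Finset.sum_congr rfl fun b _ => ?_
      rw [row_eq V (fun _ => 0) α (fun i => by simp [hV])]
      simp [hV]
      ring)
    funext b
    have h2 := congrFun h1 b
    simpa using h2
  have hne : ∀ x : (Fin r → Fin 2) → ℤ, x ≠ 0 → (A x).det ≠ 0 := by
    intro x hx h0
    obtain ⟨z, hz, hz0⟩ := Matrix.exists_mulVec_eq_zero_iff.2 h0
    have h1 : (tens V * (A x).map (Int.castRingHom ℝ)) *ᵥ (fun b => (z b : ℝ)) = 0 := by
      rw [← mulVec_mulVec]
      have h2 : (A x).map (Int.castRingHom ℝ) *ᵥ (fun b => (z b : ℝ)) = 0 := by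
        funext j
        have h3 := congrFun hz0 j
        simp only [mulVec, dotProduct, Pi.zero_apply] at h3 ⊢
        have h4 : ((∑ k, A x j k * z k : ℤ) : ℝ) = 0 := by rw [h3]; simp
        push_cast at h4
        simpa using h4
      rw [h2, mulVec_zero]
    rw [hmul x, ← mulVec_mulVec] at h1
    have h5 := congrFun h1 (fun _ => 0)
    rw [mulVec_diagonal, Pi.zero_apply] at h5
    rcases mul_eq_zero.1 h5 with h6 | h6
    · rcases mul_eq_zero.1 h6 with h7 | h7
      · exact pow_ne_zero _ hDR h7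
      · exact hy0 x hx h7
    · exact hy0 z hz h6
  -- the bound
  have h01 : ∀ i, g i 0 1 ≠ 0 := fun i => g01_ne (g i) (hdet i) (hg i)
  have h11 : ∀ i, g i 1 1 ≠ 0 := by
    intro i h0
    apply hdet i
    rw [det_fin_two, hrow i, h0]
    ring
  set k : Fin r → Fin 2 → ℝ := fun i => ![g i 0 1, g i 1 1] with hk
  have hgV : tens g = diagonal (fun a => ∏ i, k i (a i)) * tens V := by
    rw [← tens_diagonal, tens_mul]
    congr 1
    funext i
    ext a b
    rw [diagonal_mul]
    fin_cases a <;> fin_cases b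
    · simp [hk, hV, hg i, mul_comm]
    · simp [hk, hV]
    · simp [hk, hV, hrow i, mul_comm]
    · simp [hk, hV]
  set κ : ℝ := ∏ a : Fin r → Fin 2, ∏ i, k i (a i) with hκ
  have hκ0 : κ ≠ 0 := by
    refine Finset.prod_ne_zero_iff.2 fun a _ => Finset.prod_ne_zero_iff.2 fun i _ => ?_
    generalize a i = j
    fin_cases j
    · simpa [hk] using h01 i
    · simpa [hk] using h11 i
  set M : ℝ := ∏ _a : Fin r → Fin 2, (D : ℝ) ^ r with hM
  have hM0 : M ≠ 0 := Finset.prod_ne_zero_iff.2 fun a _ => pow_ne_zero _ hDR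
  intro hsm
  obtain ⟨x, hx, hx2⟩ := hsm (|κ| / |M|) (div_pos (abs_pos.2 hκ0) (abs_pos.2 hM0))
  have h1 : ∏ a, (tens g *ᵥ fun b => (x b : ℝ)) a = κ * ∏ a, y x a := by
    rw [hκ, ← Finset.prod_mul_distrib]
    refine Finset.prod_congr rfl fun a _ => ?_
    rw [hgV, ← mulVec_mulVec, mulVec_diagonal]
  have h2 := hdetA x
  rw [Finset.prod_mul_distrib, ← hM] at h2
  have h3 : (1 : ℝ) ≤ |(((A x).det : ℤ) : ℝ)| := by
    rw [← Int.cast_abs]
    exact_mod_cast Int.one_le_abs (hne x hx)
  rw [h2, abs_mul] at h3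
  rw [h1, abs_mul, lt_div_iff₀ (abs_pos.2 hM0)] at hx2
  have h4 : 0 < |κ| := abs_pos.2 hκ0
  nlinarith

end Pool.Agent.V7H90.Tens
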