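import Mathlib
import Pool.Agent.N759.CFr.Sym
import Pool.Agent.V7H90.Tens.Cont

/-! # Long runs of a block give quadratic limit points -/

open Matrix Filter Topology Pool.Agent.N759.CFr

namespace Pool.Agent.V7H90.Tens

/-- the partial quotients of `α` contain arbitrarily long runs `u_0 … u_(p-1) u_0 … u_(p-1) …` of
one block -/
def Runs (α : ℝ) : Prop :=
  ∃ (p : ℕ) (u : ℕ → ℤ), 0 < p ∧ (∀ j, u (j + p) = u j) ∧
    ∀ N : ℕ, ∃ s : ℕ, ∀ j < N, pq α (s + j) = u j

theorem quad_limit {α : ℝ} (hα : Irrational α) (h : Runs α) :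
    ∃ ξ : ℝ, Limit α ξ ∧ ∃ p q : ℚ, ξ ^ 2 = p * ξ + q := by
  obtain ⟨p, u, hp, hu, hrun⟩ := h
  have hu' : ∀ k j, u (j + p * k) = u j := by
    intro k
    induction k with
    | zero => intro j; simp
    | succ k ih =>
      intro j
      rw [Nat.mul_succ, ← Nat.add_assoc, hu, ih]
  choose s0 hs0 using hrun
  set L : ℕ → ℕ := fun N => (2 * N + 1) + p + p * (N + 1) with hL
  set s : ℕ → ℕ := fun N => s0 (L N) + p * (N + 1) with hs
  have hsj : ∀ N j, j < 2 * N + 1 + p → pq α (s N + j) = u j := by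
    intro N j hj
    have h1 := hs0 (L N) (p * (N + 1) + j) (by simp only [hL]; omega)
    rw [← Nat.add_assoc, Nat.add_comm (p * (N + 1)) j] at h1
    rw [← hu' (N + 1) j, ← h1, hs]
  have hs1 : ∀ N, N + 1 ≤ s N := by
    intro N
    have h1 : N + 1 ≤ p * (N + 1) := Nat.le_mul_of_pos_left _ hp
    simp only [hs]
    omega
  have hst : Tendsto s atTop atTop := tendsto_atTop_mono (fun N => (Nat.le_succ N).trans (hs1 N))
    tendsto_id
  -- convergence
  have hclose : ∀ N, dist (cq α (s N)) (cq α (s (N + 1))) ≤ 1 * (1 / 2 : ℝ) ^ N := by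
    intro N
    rw [one_mul, Real.dist_eq]
    refine diff_le (irr_cq hα _) (irr_cq hα _) N fun j hj => ?_
    rw [← pq_add, ← pq_add, hsj N j (by omega), hsj (N + 1) j (by omega)]
  have hclose' : ∀ N, |cq α (s N) - cq α (s N + p)| ≤ (1 / 2 : ℝ) ^ N := by
    intro N
    refine diff_le (irr_cq hα _) (irr_cq hα _) N fun j hj => ?_
    rw [← pq_add, ← pq_add, hsj N j (by omega), Nat.add_assoc, hsj N (p + j) (by omega),
      Nat.add_comm, hu]
  obtain ⟨ξ, hξ⟩ := cauchySeq_tendsto_of_complete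
    (cauchySeq_of_le_geometric (1 / 2 : ℝ) 1 (by norm_num) hclose)
  have hξ' : Tendsto (fun N => cq α (s N + p)) atTop (𝓝 ξ) := by
    have h1 : Tendsto (fun N => cq α (s N) - cq α (s N + p)) atTop (𝓝 0) :=
      squeeze_zero_norm (fun N => hclose' N)
        (tendsto_pow_atTop_nhds_zero_of_lt_one (by norm_num) (by norm_num))
    have h2 := hξ.sub h1
    simpa using h2
  refine ⟨ξ, Or.inl (MapClusterPt.of_comp hst hξ.mapClusterPt), ?_⟩
  -- the relation
  set W := WM α (s 0) p with hW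
  have hWN : ∀ N, WM α (s N) p = W := by
    intro N
    refine WM_congr α (s 0) (s N) p fun j hj => ?_
    rw [hsj N j (by omega), hsj 0 j (by omega)]
  have hrel : ∀ N, (W 0 0 : ℝ) * cq α (s N + p) + W 0 1
      = ((W 1 0 : ℝ) * cq α (s N + p) + W 1 1) * cq α (s N) := by
    intro N
    obtain ⟨h1, h2⟩ := WM_cq hα (s N) p
    rw [hWN N] at h1 h2
    rw [h1, h2]
  have hlim1 : Tendsto (fun N => (W 0 0 : ℝ) * cq α (s N + p) + W 0 1) atTop
      (𝓝 ((W 0 0 : ℝ) * ξ + W 0 1)) := (hξ'.const_mul _).add_const _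
  have hlim2 : Tendsto (fun N => ((W 1 0 : ℝ) * cq α (s N + p) + W 1 1) * cq α (s N)) atTop
      (𝓝 (((W 1 0 : ℝ) * ξ + W 1 1) * ξ)) := ((hξ'.const_mul _).add_const _).mul hξ
  simp only [hrel] at hlim1
  have heq := tendsto_nhds_unique hlim1 hlim2
  have hpos : (1 : ℤ) ≤ W 1 0 := by
    obtain ⟨s', hs'⟩ := Nat.exists_eq_add_of_le' (Nat.one_le_iff_ne_zero.2 (by
      have := hs1 0
      omega : s 0 ≠ 0))
    obtain ⟨p', rfl⟩ := Nat.exists_eq_add_of_le' hp
    rw [hW, hs']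
    exact (WM_pos hα s' p').2.2.1
  have hW0 : (W 1 0 : ℝ) ≠ 0 := by
    have : (0 : ℝ) < W 1 0 := by
      have h1 : (0 : ℤ) < W 1 0 := by omega
      exact_mod_cast h1
    exact this.ne'
  refine ⟨(W 0 0 - W 1 1) / W 1 0, W 0 1 / W 1 0, ?_⟩
  push_cast
  field_simp
  linarith

end Pool.Agent.V7H90.Tens
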