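import Mathlib
import Pool.Agent.V7H90.Tens.Norm
import Pool.Agent.V7H90.Tens.Runs
import Pool.Agent.N759.CFr.SymFinal

/-! # Limits of matrices under diagonal matrices and unimodular matrices -/

open Matrix Filter Topology Pool.Agent.N759.CFr Kronecker

namespace Pool.Agent.V7H90.Tens

/-- `H` is a limit of matrices `diag(A) S Γ`, `A` with product `±1`, `Γ` unimodular -/
def Lim {ι : Type*} [Fintype ι] [DecidableEq ι] (S H : Matrix ι ι ℝ) : Prop :=
  ∃ (A : ℕ → ι → ℝ) (Γ Δ : ℕ → Matrix ι ι ℤ), (∀ n, |∏ i, A n i| = 1) ∧ (∀ n, Δ n * Γ n = 1) ∧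
    Tendsto (fun n => diagonal (A n) * S * (Γ n).map (Int.cast : ℤ → ℝ)) atTop (𝓝 H)

/-- the product of the forms is proportional to an integral form -/
def Integral {ι : Type*} [Fintype ι] (S : Matrix ι ι ℝ) : Prop :=
  ∃ c : ℝ, c ≠ 0 ∧ ∀ m : ι →₀ ℕ, ∃ z : ℤ, MvPolynomial.coeff m
    (c • (∏ i : ι, ∑ j : ι, MvPolynomial.C (S i j) * MvPolynomial.X j : MvPolynomial ι ℝ)) = (z : ℝ)

variable {ι : Type*} [Fintype ι] [DecidableEq ι]

lemma Lim.small {S H : Matrix ι ι ℝ} (h : Lim S H) {P : ι → ℤ} (hP : P ≠ 0) {i₀ : ι}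
    (h0 : (H *ᵥ fun j => (P j : ℝ)) i₀ = 0) : Small S := by
  obtain ⟨A, Γ, Δ, hA, hΓ, hlim⟩ := h
  exact small_of_limit S H A Γ Δ hA hΓ hlim P hP i₀ h0

lemma Lim.tens {r : ℕ} {g h : Fin r → Matrix (Fin 2) (Fin 2) ℝ} (H : ∀ i, Lim (g i) (h i)) :
    Lim (tens g) (tens h) := by
  choose a γ δ ha hγ hlim using H
  refine ⟨fun n b => ∏ i, a i n (b i), fun n => Tens.tens fun i => γ i n,
    fun n => Tens.tens fun i => δ i n, fun n => prod_abs_one (fun i => a i n) fun i => ha i n,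
    fun n => ?_, limit_tens g h a γ hlim⟩
  rw [tens_mul, ← tens_one]
  congr 1
  funext i
  exact hγ i n

lemma Lim.kron {S H : Matrix ι ι ℝ} (h : Lim S H) {m : ℕ} {G G' : Matrix (Fin m) (Fin m) ℝ}
    (h' : Lim G G') : Lim (S ⊗ₖ G) (H ⊗ₖ G') := by
  obtain ⟨A, Γ, Δ, hA, hΓ, hlim⟩ := h
  obtain ⟨B, Γ', Δ', hB, hΓ', hlim'⟩ := h'
  refine ⟨fun n x => A n x.1 * B n x.2, fun n => Γ n ⊗ₖ Γ' n, fun n => Δ n ⊗ₖ Δ' n, fun n => ?_,
    fun n => ?_, ?_⟩
  · rw [Finset.prod_mul_distrib, Fintype.prod_prod_type, Fintype.prod_prod_type]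
    simp only [Finset.prod_const, Finset.prod_pow, abs_mul, abs_pow, hA n, hB n, one_pow, mul_one]
  · rw [← mul_kronecker_mul, hΓ n, hΓ' n, one_kronecker_one]
  · have h1 : ∀ n, diagonal (fun x : ι × Fin m => A n x.1 * B n x.2) * (S ⊗ₖ G) *
        (Γ n ⊗ₖ Γ' n).map (Int.cast : ℤ → ℝ)
        = (diagonal (A n) * S * (Γ n).map (Int.cast : ℤ → ℝ)) ⊗ₖ
          (diagonal (B n) * G * (Γ' n).map (Int.cast : ℤ → ℝ)) := by
      intro n
      have e1 : diagonal (fun x : ι × Fin m => A n x.1 * B n x.2)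
          = diagonal (A n) ⊗ₖ diagonal (B n) := (diagonal_kronecker_diagonal _ _).symm
      have e2 : (Γ n ⊗ₖ Γ' n).map (Int.cast : ℤ → ℝ)
          = (Γ n).map (Int.cast : ℤ → ℝ) ⊗ₖ (Γ' n).map (Int.cast : ℤ → ℝ) := by
        ext ⟨i, j⟩ ⟨k, l⟩
        simp [kroneckerMap_apply]
      rw [e1, e2, ← mul_kronecker_mul, ← mul_kronecker_mul]
    simp only [h1]
    refine tendsto_pi_nhds.2 fun x => tendsto_pi_nhds.2 fun y => ?_
    simp only [kroneckerMap_apply]
    exact (tendsto_pi_nhds.1 (tendsto_pi_nhds.1 hlim x.1) y.1).mul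
      (tendsto_pi_nhds.1 (tendsto_pi_nhds.1 hlim' x.2) y.2)

/-- the start file theorem on limits with an algebraic row -/
lemma Lim.alg {S H : Matrix ι ι ℝ} (h : Lim S H) (hS : S.det ≠ 0) (hcard : 3 ≤ Fintype.card ι)
    (i₀ : ι) (s : ℝ) (hs : s ≠ 0) (K : IntermediateField ℚ ℝ) (hfin : FiniteDimensional ℚ K)
    (hK : Module.finrank ℚ K ≤ Fintype.card ι) (hmem : ∀ j, s * H i₀ j ∈ K) :
    Small S ∨ Integral S := by
  obtain ⟨A, Γ, Δ, hA, hΓ, hlim⟩ := h
  set e : ι ≃ Fin (Fintype.card ι) := Fintype.equivFin ι with he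
  set S' : Matrix (Fin (Fintype.card ι)) (Fin (Fintype.card ι)) ℝ := S.submatrix e.symm e.symm
    with hS'
  have hSdet : S'.det ≠ 0 := by rw [hS', det_submatrix_equiv_self]; exact hS
  have hlimS : Tendsto (fun n => diagonal (fun j => A n (e.symm j)) * S' *
      ((Γ n).submatrix e.symm e.symm).map (Int.cast : ℤ → ℝ)) atTop
      (𝓝 (H.submatrix e.symm e.symm)) := by
    have h1 : ∀ n, diagonal (fun j => A n (e.symm j)) * S' *
        ((Γ n).submatrix e.symm e.symm).map (Int.cast : ℤ → ℝ)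
        = (diagonal (A n) * S * (Γ n).map (Int.cast : ℤ → ℝ)).submatrix e.symm e.symm := by
      intro n
      rw [← submatrix_mul_equiv _ _ _ e.symm _, ← submatrix_mul_equiv _ _ _ e.symm _,
        submatrix_diagonal_equiv]
      rfl
    simp only [h1]
    have hc : Continuous fun M : Matrix ι ι ℝ =>
        M.submatrix e.symm e.symm := Continuous.matrix_submatrix continuous_id _ _
    exact (hc.tendsto _).comp hlim
  have hA' : ∀ n, |∏ j, A n (e.symm j)| = 1 := by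
    intro n
    rw [Equiv.prod_comp e.symm fun b => A n b]
    exact hA n
  have hΓ' : ∀ n, |((Γ n).submatrix e.symm e.symm).det| = 1 := by
    intro n
    rw [det_submatrix_equiv_self]
    have h2 := congrArg det (hΓ n)
    rw [det_mul, det_one] at h2
    exact Int.isUnit_iff_abs_eq.1 (IsUnit.of_mul_eq_one_right _ h2)
  have hmem' : ∀ j, s * (H.submatrix e.symm e.symm) (e i₀) j ∈ K := by
    intro j
    rw [submatrix_apply, Equiv.symm_apply_apply]
    exact hmem _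
  rcases H715R2.limit_alg' hcard hSdet _ _ hA' hΓ' hlimS (e i₀) s hs K hK hmem' with
    h1 | ⟨h1, -⟩
  · right
    obtain ⟨c, hc, hz⟩ := h1
    refine ⟨c, hc, fun m => ?_⟩
    obtain ⟨z, hz⟩ := hz (Finsupp.mapDomain e m)
    refine ⟨z, ?_⟩
    rw [← hz]
    have h2 : c • H715R2.polyF S' = MvPolynomial.rename e
        (c • (∏ i : ι, ∑ j : ι, MvPolynomial.C (S i j) * MvPolynomial.X j : MvPolynomial ι ℝ)) := by
      rw [map_smul]
      congr 1
      unfold H715R2.polyF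
      rw [map_prod, ← Equiv.prod_comp e]
      refine Finset.prod_congr rfl fun i _ => ?_
      rw [map_sum, ← Equiv.sum_comp e]
      refine Finset.sum_congr rfl fun j _ => ?_
      rw [map_mul, MvPolynomial.rename_C, MvPolynomial.rename_X, hS', submatrix_apply,
        Equiv.symm_apply_apply, Equiv.symm_apply_apply]
    rw [h2, MvPolynomial.coeff_rename_mapDomain _ e.injective]
  · left
    intro ε hε
    obtain ⟨x, hx, hx2⟩ := h1 ε hε
    refine ⟨fun b => x (e b), ?_, ?_⟩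
    · intro h0
      apply hx
      funext j
      have := congrFun h0 (e.symm j)
      simpa using this
    · have h2 : ∏ a, (S *ᵥ fun b => (x (e b) : ℝ)) a = H715R2.FF S' (H715R2.iR x) := by
        unfold H715R2.FF H715R2.iR
        rw [← Equiv.prod_comp e.symm]
        refine Finset.prod_congr rfl fun j _ => ?_
        simp only [mulVec, dotProduct]
        rw [← Equiv.sum_comp e.symm]
        refine Finset.sum_congr rfl fun l _ => ?_
        rw [Equiv.apply_symm_apply]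
        rfl
      rw [h2]
      exact hx2

lemma Integral.values {S : Matrix ι ι ℝ} (h : Integral S) :
    ∃ c : ℝ, c ≠ 0 ∧ ∀ x : ι → ℤ, ∃ z : ℤ, c * ∏ a, (S *ᵥ fun b => (x b : ℝ)) a = z := by
  obtain ⟨c, hc, hz⟩ := h
  choose z hz using hz
  refine ⟨c, hc, fun x => ?_⟩
  set p : MvPolynomial ι ℝ :=
    ∏ i : ι, ∑ j : ι, MvPolynomial.C (S i j) * MvPolynomial.X j with hp
  have h1 : c * ∏ a, (S *ᵥ fun b => (x b : ℝ)) a
      = MvPolynomial.eval (fun j => (x j : ℝ)) (c • p) := by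
    rw [MvPolynomial.smul_eval]
    congr 1
    simp [hp, mulVec, dotProduct, map_prod, map_sum]
  rw [h1, MvPolynomial.eval_eq']
  refine ⟨∑ m ∈ (c • p).support, z m * ∏ i, x i ^ m i, ?_⟩
  push_cast
  refine Finset.sum_congr rfl fun m _ => ?_
  rw [hz m]

/-- values at pure tensors -/
lemma kron_pure {m : ℕ} (S : Matrix ι ι ℝ) (G : Matrix (Fin m) (Fin m) ℝ) (v : ι → ℤ)
    (y : Fin m → ℤ) :
    ∏ i : ι × Fin m, ((S ⊗ₖ G) *ᵥ fun j => ((v j.1 * y j.2 : ℤ) : ℝ)) i
      = (∏ i, (S *ᵥ fun j => (v j : ℝ)) i) ^ m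
          * (∏ k, (G *ᵥ fun l => (y l : ℝ)) k) ^ (Fintype.card ι) := by
  have hentry : ∀ i : ι × Fin m,
      ((S ⊗ₖ G) *ᵥ fun j => ((v j.1 * y j.2 : ℤ) : ℝ)) i
        = (S *ᵥ fun j => (v j : ℝ)) i.1 * (G *ᵥ fun l => (y l : ℝ)) i.2 := by
    rintro ⟨i, k⟩
    simp only [mulVec, dotProduct, Fintype.sum_prod_type, kroneckerMap_apply, Int.cast_mul]
    rw [Finset.sum_mul_sum]
    refine Finset.sum_congr rfl fun a _ => Finset.sum_congr rfl fun l _ => ?_
    ring
  rw [Finset.prod_congr rfl fun i _ => hentry i, Fintype.prod_prod_type]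
  simp only [Finset.prod_mul_distrib, Finset.prod_const, Finset.card_univ, Fintype.card_fin,
    Finset.prod_pow]

end Pool.Agent.V7H90.Tens
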