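import Mathlib
import Pool.Agent.V7H90.Tens.Lim

/-! # Tensor products: the main statements -/

open Matrix Filter Topology Pool.Agent.N759.CFr Kronecker

namespace Pool.Agent.V7H90.Tens

variable {r m : ℕ} (α : Fin r → ℝ) (hα : ∀ i, Irrational (α i))
  (g : Fin r → Matrix (Fin 2) (Fin 2) ℝ) (hdet : ∀ i, (g i).det ≠ 0)
  (hg : ∀ i, g i 0 0 = α i * g i 0 1)

include hα hdet hg in
/-- limits of the binary factors with rows of given slopes, or small values -/
lemma exists_lims (ξ : Fin r → ℝ) (hξ : ∀ i, Limit (α i) (ξ i)) :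
    Small (tens g) ∨ ∃ (h : Fin r → Matrix (Fin 2) (Fin 2) ℝ) (t : Fin r → Fin 2),
      (∀ i, Lim (g i) (h i)) ∧ (∀ i, h i (t i) 0 = ξ i * h i (t i) 1) ∧
      ∀ i, h i (t i) 1 ≠ 0 := by
  by_cases hb : ∀ i, ∃ C : ℝ, ∀ m, cq (α i) m ≤ C
  · right
    have hex := fun i => exists_limit (hα i) (g i) (hdet i) (hg i) (hb i) (hξ i)
    choose a γ h t ha hγ hlim ht ht1 using hex
    exact ⟨h, t, fun i => ⟨a i, γ i, fun n => (γ i n)⁻¹, ha i,
      fun n => inv_mul_of_det (hγ i n), hlim i⟩, ht, ht1⟩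
  · left
    push Not at hb
    obtain ⟨i₀, hi₀⟩ := hb
    exact small_of_factor g i₀ (small_of_unbdd (hα i₀) (g i₀) (hg i₀) hi₀)

lemma small_kron (h : Small (tens g)) (hm : 0 < m) (G : Matrix (Fin m) (Fin m) ℝ) :
    Small (tens g ⊗ₖ G) := fun ε hε => kron_small (tens g) h m hm G ε hε

include hα hdet hg in
/-- linearly dependent products -/
theorem part_one (ξ : Fin r → ℝ) (hξ : ∀ i, Limit (α i) (ξ i))
    {G G' : Matrix (Fin m) (Fin m) ℝ} (hG : Lim G G') (t' : Fin m)
    (hdep : ¬ LinearIndependent ℚ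
      (fun x : Finset (Fin r) × Fin m => (∏ i ∈ x.1, ξ i) * G' t' x.2)) :
    Small (tens g ⊗ₖ G) := by
  have hm : 0 < m := t'.pos
  rcases exists_lims α hα g hdet hg ξ hξ with h | ⟨h, t, hlim, ht, ht1⟩
  · exact small_kron g h hm G
  · rw [Fintype.linearIndependent_iff] at hdep
    push Not at hdep
    obtain ⟨c, hrel, ⟨I, j⟩, hc⟩ := hdep
    obtain ⟨N, P, hN, hP⟩ := clear_den c
    refine ((Lim.tens hlim).kron hG).small (P := fun x => P (toSet x.1, x.2)) ?_
      (i₀ := (t, t')) ?_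
    · intro h0
      have h1 := congrFun h0 (toSet.symm I, j)
      simp only [Equiv.apply_symm_apply, Pi.zero_apply] at h1
      have h2 := hP (I, j)
      rw [h1, Int.cast_zero] at h2
      rcases mul_eq_zero.1 h2.symm with h3 | h3
      · exact hN (by exact_mod_cast h3)
      · exact hc h3
    · have hP' : ∀ b, (P b : ℝ) = N * (c b : ℝ) := by
        intro b
        have h1 : ((P b : ℚ) : ℝ) = ((N * c b : ℚ) : ℝ) := by rw [hP b]
        push_cast at h1
        exact h1
      have h1 : ∑ x : (Fin r → Fin 2) × Fin m, (c (toSet x.1, x.2) : ℝ) * (mon ξ x.1 * G' t' x.2)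
          = 0 := by
        rw [← hrel, ← Equiv.sum_comp (toSet.prodCongr (Equiv.refl (Fin m)))]
        refine Finset.sum_congr rfl fun x _ => ?_
        rw [mon_eq, Rat.smul_def]
        rfl
      simp only [mulVec, dotProduct]
      have h2 : ∀ x : (Fin r → Fin 2) × Fin m,
          (tens h ⊗ₖ G') (t, t') x * (P (toSet x.1, x.2) : ℝ)
          = ((∏ i, h i (t i) 1) * N) * ((c (toSet x.1, x.2) : ℝ) * (mon ξ x.1 * G' t' x.2)) := by
        intro x
        rw [kroneckerMap_apply, row_eq h t ξ ht, hP']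
        ring
      rw [Finset.sum_congr rfl fun x _ => h2 x, ← Finset.mul_sum, h1, mul_zero]

include hdet in
lemma det_tens_ne : (tens g).det ≠ 0 := by
  have h1 : tens g * tens (fun i => (g i)⁻¹) = 1 := by
    rw [tens_mul, ← tens_one]
    congr 1
    funext i
    exact mul_nonsing_inv _ (isUnit_iff_ne_zero.2 (hdet i))
  intro h0
  have h2 := congrArg det h1
  rw [det_mul, h0, zero_mul, det_one] at h2
  exact zero_ne_one h2

include hα hdet hg in
/-- algebraic limit points -/
theorem part_two (hr : 3 ≤ 2 ^ r * m) (ξ : Fin r → ℝ) (hξ : ∀ i, Limit (α i) (ξ i))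
    {G G' : Matrix (Fin m) (Fin m) ℝ} (hGdet : G.det ≠ 0) (hG : Lim G G') (t' : Fin m)
    (K : IntermediateField ℚ ℝ) (hfin : FiniteDimensional ℚ K)
    (hK : Module.finrank ℚ K ≤ 2 ^ r * m) (hξK : ∀ i, ξ i ∈ K) (s : ℝ) (hs : s ≠ 0)
    (hGK : ∀ j, s * G' t' j ∈ K) :
    Small (tens g ⊗ₖ G) ∨ (Integral (tens g ⊗ₖ G) ∧
      ∀ i, ∃ p q : ℚ, α i ^ 2 = p * α i + q ∧ g i 1 0 = (p - α i) * g i 1 1) := by
  have hm : 0 < m := t'.pos
  have hcard : Fintype.card ((Fin r → Fin 2) × Fin m) = 2 ^ r * m := by simp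
  rcases exists_lims α hα g hdet hg ξ hξ with h | ⟨h, t, hlim, ht, ht1⟩
  · exact Or.inl (small_kron g h hm G)
  · by_cases hsm : Small (tens g ⊗ₖ G)
    · exact Or.inl hsm
    · right
      have hs0 : (∏ i, h i (t i) 1) ≠ 0 := Finset.prod_ne_zero_iff.2 fun i _ => ht1 i
      have hint : Integral (tens g ⊗ₖ G) := by
        refine (((Lim.tens hlim).kron hG).alg ?_ (by rw [hcard]; exact hr) (t, t')
          (s * (∏ i, h i (t i) 1)⁻¹) (mul_ne_zero hs (inv_ne_zero hs0)) K hfin
          (by rw [hcard]; exact hK) ?_).resolve_left hsm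
        · rw [det_kronecker]
          exact mul_ne_zero (pow_ne_zero _ (det_tens_ne g hdet)) (pow_ne_zero _ hGdet)
        · rintro ⟨b, j⟩
          rw [kroneckerMap_apply, row_eq h t ξ ht]
          have h1 : s * (∏ i, h i (t i) 1)⁻¹ * ((∏ i, h i (t i) 1) * mon ξ b * G' t' j)
              = mon ξ b * (s * G' t' j) := by
            field_simp
          rw [h1]
          refine mul_mem (prod_mem fun i _ => ?_) (hGK j)
          split_ifs
          · exact hξK i
          · exact one_mem K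
      refine ⟨hint, ?_⟩
      have hnsg : ¬ Small (tens g) := fun h => hsm (small_kron g h hm G)
      obtain ⟨c, hc, hz⟩ := hint.values
      obtain ⟨y, hy⟩ : ∃ y : Fin m → ℤ, ∏ k, (G *ᵥ fun l => (y l : ℝ)) k ≠ 0 := by
        by_contra hcon
        push Not at hcon
        apply hsm
        intro ε hε
        refine ⟨fun x => 1 * 1, ?_, ?_⟩
        · intro h0
          have := congrFun h0 (fun _ => 0, t')
          simp at this
        · rw [kron_pure (tens g) G (fun _ => 1) (fun _ => 1), hcon, zero_pow (by simp), mul_zero,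
            abs_zero]
          exact hε
      refine conj_of_int α g hdet hg hnsg m hm
        ⟨c * (∏ k, (G *ᵥ fun l => (y l : ℝ)) k) ^ Fintype.card (Fin r → Fin 2),
          mul_ne_zero hc (pow_ne_zero _ hy), fun x => ?_⟩
      obtain ⟨z, hz⟩ := hz fun j => x j.1 * y j.2
      refine ⟨z, ?_⟩
      rw [← hz, kron_pure]
      ring

include hα hdet hg in
/-- classification for quadratic limit points -/
theorem part_three (hr : 2 ≤ r) (ξ : Fin r → ℝ) (hξ : ∀ i, Limit (α i) (ξ i))
    (hq : ∀ i, ∃ p q : ℚ, ξ i ^ 2 = p * ξ i + q) :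
    Small (tens g) ↔ ¬ ((∀ i, ∃ p q : ℚ, α i ^ 2 = p * α i + q ∧
        g i 1 0 = (p - α i) * g i 1 1) ∧
      LinearIndependent ℚ (fun I : Finset (Fin r) => ∏ i ∈ I, α i)) := by
  constructor
  · rintro h ⟨h1, h2⟩
    exact not_small_of_norm α hα g hdet hg h1 h2 h
  · intro h
    by_contra hsm
    apply h
    refine ⟨?_, indep_of_not_small α g hg hsm⟩
    obtain ⟨c, hc, hz⟩ := (small_or_int hr α hα g hdet hg ξ hξ hq).resolve_left hsm
    refine conj_of_int α g hdet hg hsm 1 one_pos ⟨c, hc, fun x => ?_⟩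
    rw [pow_one]
    exact hz x

end Pool.Agent.V7H90.Tens
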